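import Pool.Agent.HamRed.C3

/-!
# MP_3b8a02_ag, Q2: a criterion for a normal ring not to be ℚ-factorial

PROOF. Let `P` be a minimal prime of `(F1)` contained in `ker τ`. It has height one, and contains `F2` because
`F2 * H = - F1 * K` and `H` is not in `ker τ`. Let `𝔪 = {f : (ρ f)(0) = 0}`. If `N P` is the divisor of `a / b` near `𝔪`,
then (a normal Noetherian domain is locally the intersection of its localisations at primes of height one) there is a
`c` in `P` which divides `F1^N` and `F2^N` up to elements outside `𝔪`. Apply `ρ`: `ρ c` vanishes at `0` and divides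
`x^N` and `y^N` up to polynomials which do not vanish at `0`: impossible.
-/

set_option linter.all false

namespace HR2

open HamRed

section Comm

variable {A : Type*} [CommRing A]

/-- The ideal `(y : w)`. -/
def col (y w : A) : Ideal A where
  carrier := {b | y ∣ b * w}
  add_mem' := by
    intro a b ha hb
    show y ∣ (a + b) * w
    rw [add_mul]
    exact dvd_add ha hb
  zero_mem' := by
    show y ∣ 0 * w
    simp
  smul_mem' := by
    intro c b hb
    show y ∣ (c * b) * w
    rw [mul_assoc]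
    exact Dvd.dvd.mul_left hb c

theorem mem_col {y w b : A} : b ∈ col y w ↔ y ∣ b * w := Iff.rfl

theorem height_col [IsDomain A] [IsNoetherianRing A] [IsIntegrallyClosed A] {y w : A} (hy : y ≠ 0)
    (hP : (col y w).IsPrime) : (col y w).height = 1 := by
  set P := col y w with hPdef
  have hyP : y ∈ P := by
    rw [hPdef, mem_col]
    exact Dvd.intro _ rfl
  have hbot : P ≠ ⊥ := by
    intro h
    rw [h] at hyP
    exact hy hyP
  have hw : ¬ y ∣ w := by
    intro h
    apply hP.ne_top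
    rw [Ideal.eq_top_iff_one, hPdef, mem_col, one_mul]
    exact h
  have hw0 : w ≠ 0 := by
    rintro rfl
    exact hw (dvd_zero y)
  have hge : P.height ≠ 0 := by
    rw [Ne, Ideal.height_eq_zero_iff_eq_bot]
    exact hbot
  by_cases hcase : ∀ b ∈ P, ∃ c ∈ P, b * w = y * c
  · exfalso
    let K := FractionRing A
    have hy' : algebraMap A K y ≠ 0 := by
      rw [Ne, IsFractionRing.to_map_eq_zero_iff]
      exact hy
    have hint : IsIntegral A (algebraMap A K w / algebraMap A K y) := by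
      refine isIntegral_of_smul_mem_submodule (M := K)
        (Submodule.map (Algebra.linearMap A K) (P : Submodule A A)) ?_ ?_ _ ?_
      · intro h
        have h1 : Algebra.linearMap A K y ∈ Submodule.map (Algebra.linearMap A K) (P : Submodule A A) :=
          Submodule.mem_map_of_mem hyP
        rw [h] at h1
        exact hy' h1
      · exact Submodule.FG.map _ (IsNoetherian.noetherian (P : Submodule A A))
      · intro n hn
        obtain ⟨b, hb, rfl⟩ := hn
        obtain ⟨c, hc, hbc⟩ := hcase b hb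
        refine ⟨c, hc, ?_⟩
        rw [Algebra.linearMap_apply, Algebra.linearMap_apply, smul_eq_mul, eq_comm, div_mul_eq_mul_div,
          div_eq_iff hy', ← map_mul, ← map_mul, mul_comm w b, hbc, mul_comm]
    obtain ⟨z, hz⟩ := IsIntegrallyClosed.isIntegral_iff.1 hint
    apply hw
    rw [eq_div_iff hy', ← map_mul] at hz
    have := IsFractionRing.injective A K hz
    exact ⟨z, by rw [← this, mul_comm]⟩
  · push Not at hcase
    obtain ⟨b, hb, hbc⟩ := hcase
    obtain ⟨v, hv⟩ := mem_col.1 hb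
    have hvP : v ∉ P := fun h => hbc v h hv
    have hmin : P ∈ (Ideal.span {b}).minimalPrimes := by
      refine ⟨⟨hP, ?_⟩, ?_⟩
      · rw [Ideal.span_le, Set.singleton_subset_iff]
        exact hb
      · rintro Q ⟨hQ, hle⟩ hQP c hc
        obtain ⟨u, hu⟩ := mem_col.1 hc
        have e : v * c = u * b := by
          apply mul_right_cancel₀ hw0
          calc v * c * w = v * (c * w) := by ring
            _ = u * (y * v) := by rw [hu]; ring
            _ = u * b * w := by rw [← hv]; ring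
        have h1 : v * c ∈ Q := by
          rw [e]
          exact Q.mul_mem_left u (hle (Ideal.mem_span_singleton_self b))
        rcases hQ.mem_or_mem h1 with h2 | h2
        · exact absurd (hQP h2) hvP
        · exact h2
    have hle := Ideal.height_le_one_of_isPrincipal_of_mem_minimalPrimes (Ideal.span {b}) P hmin
    refine le_antisymm hle ?_
    rw [ENat.one_le_iff_ne_zero]
    exact hge

/-- `{b : y ∣ s b w for some s ∉ 𝔪}` -/
def sat (𝔪 : Ideal A) [h𝔪 : 𝔪.IsPrime] (y w : A) : Ideal A where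
  carrier := {b | ∃ s, s ∉ 𝔪 ∧ y ∣ s * b * w}
  add_mem' := by
    rintro a b ⟨s, hs, ha⟩ ⟨t, ht, hb⟩
    refine ⟨s * t, fun h => ?_, ?_⟩
    · rcases h𝔪.mem_or_mem h with h | h
      · exact hs h
      · exact ht h
    · have e : s * t * (a + b) * w = t * (s * a * w) + s * (t * b * w) := by ring
      rw [e]
      exact dvd_add (Dvd.dvd.mul_left ha t) (Dvd.dvd.mul_left hb s)
  zero_mem' := ⟨1, fun h => h𝔪.ne_top ((Ideal.eq_top_iff_one _).2 h), by simp⟩
  smul_mem' := by
    rintro c b ⟨s, hs, hb⟩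
    refine ⟨s, hs, ?_⟩
    rw [smul_eq_mul]
    have e : s * (c * b) * w = c * (s * b * w) := by ring
    rw [e]
    exact Dvd.dvd.mul_left hb c

theorem mem_sat {𝔪 : Ideal A} [h𝔪 : 𝔪.IsPrime] {y w b : A} :
    b ∈ sat 𝔪 y w ↔ ∃ s, s ∉ 𝔪 ∧ y ∣ s * b * w := Iff.rfl

theorem exists_col [IsNoetherianRing A] (𝔪 : Ideal A) [h𝔪 : 𝔪.IsPrime] {x y : A}
    (h : ∀ s, s ∉ 𝔪 → ¬ y ∣ s * x) :
    ∃ w, (col y w).IsPrime ∧ col y w ≤ 𝔪 ∧ ∀ s, y ∣ s * x → s ∈ col y w := by
  let S : Set (Ideal A) := {I | ∃ w, I = sat 𝔪 y w ∧ (∀ s, s ∉ 𝔪 → ¬ y ∣ s * w) ∧ sat 𝔪 y x ≤ I}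
  have hne : S.Nonempty := ⟨sat 𝔪 y x, x, rfl, h, le_rfl⟩
  obtain ⟨P, ⟨w, hPw, hw, hxw⟩, hmax⟩ := set_has_maximal_iff_noetherian.2 (inferInstance : IsNoetherian A A) S hne
  have h1𝔪 : (1 : A) ∉ 𝔪 := fun h => h𝔪.ne_top ((Ideal.eq_top_iff_one _).2 h)
  have hprime : (sat 𝔪 y w).IsPrime := by
    refine ⟨?_, ?_⟩
    · intro htop
      have h1 : (1 : A) ∈ sat 𝔪 y w := by rw [htop]; trivial
      obtain ⟨s, hs, hd⟩ := h1
      rw [mul_one] at hd
      exact hw s hs hd
    · intro a b hab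
      by_cases ha : a ∈ sat 𝔪 y w
      · exact Or.inl ha
      · right
        have hw' : ∀ s, s ∉ 𝔪 → ¬ y ∣ s * (a * w) := by
          intro s hs hd
          exact ha ⟨s, hs, by rw [mul_assoc]; exact hd⟩
        have hle : sat 𝔪 y w ≤ sat 𝔪 y (a * w) := by
          rintro c ⟨s, hs, hd⟩
          refine ⟨s, hs, ?_⟩
          have e : s * c * (a * w) = a * (s * c * w) := by ring
          rw [e]
          exact Dvd.dvd.mul_left hd a
        have hmem : sat 𝔪 y (a * w) ∈ S := ⟨a * w, rfl, hw', (hPw ▸ hxw).trans hle⟩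
        have hnot := hmax _ hmem
        have heq : sat 𝔪 y w = sat 𝔪 y (a * w) := by
          by_contra hne'
          apply hnot
          rw [hPw]
          exact lt_of_le_of_ne hle hne'
        rw [heq]
        obtain ⟨s, hs, hd⟩ := hab
        refine ⟨s, hs, ?_⟩
        have e : s * b * (a * w) = s * (a * b) * w := by ring
        rw [e]
        exact hd
  have hle𝔪 : sat 𝔪 y w ≤ 𝔪 := by
    rintro b ⟨s, hs, hd⟩
    by_contra hb
    refine hw (s * b) (fun h => ?_) hd
    rcases h𝔪.mem_or_mem h with h | h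
    · exact hs h
    · exact hb h
  -- a common denominator
  have hfg : (sat 𝔪 y w).FG := IsNoetherian.noetherian _
  obtain ⟨T, hT⟩ := hfg
  have hex : ∃ s, s ∉ 𝔪 ∧ ∀ b ∈ T, y ∣ s * b * w := by
    have hTm : ∀ b ∈ T, b ∈ sat 𝔪 y w := fun b hb => by
      rw [← hT]
      exact Ideal.subset_span hb
    clear hT
    classical
    induction T using Finset.induction_on with
    | empty => exact ⟨1, h1𝔪, fun b hb => absurd hb (Finset.notMem_empty b)⟩
    | insert a T ha ih =>
      obtain ⟨s, hs, hsT⟩ := ih (fun b hb => hTm b (Finset.mem_insert_of_mem hb))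
      obtain ⟨t, ht, hta⟩ := hTm a (Finset.mem_insert_self a T)
      refine ⟨s * t, fun h => ?_, ?_⟩
      · rcases h𝔪.mem_or_mem h with h | h
        · exact hs h
        · exact ht h
      · intro b hb
        rcases Finset.mem_insert.1 hb with rfl | hb
        · have e : s * t * b * w = s * (t * b * w) := by ring
          rw [e]
          exact Dvd.dvd.mul_left hta s
        · have e : s * t * b * w = t * (s * b * w) := by ring
          rw [e]
          exact Dvd.dvd.mul_left (hsT b hb) t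
  obtain ⟨s, hs, hsT⟩ := hex
  have hcol : col y (s * w) = sat 𝔪 y w := by
    apply le_antisymm
    · intro b hb
      refine ⟨s, hs, ?_⟩
      have e : s * b * w = b * (s * w) := by ring
      rw [e]
      exact hb
    · rw [← hT, Ideal.span_le]
      intro b hb
      show y ∣ b * (s * w)
      have e : b * (s * w) = s * b * w := by ring
      rw [e]
      exact hsT b hb
  refine ⟨s * w, ?_, ?_, ?_⟩
  · rw [hcol]
    exact hprime
  · rw [hcol]
    exact hle𝔪
  · intro t ht
    rw [hcol, ← hPw]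
    apply hxw
    exact ⟨1, h1𝔪, by rw [one_mul]; exact ht⟩

theorem ord_dvd [IsDomain A] [IsNoetherianRing A] [IsIntegrallyClosed A] (P : Ideal A) (hP : P.IsPrime)
    (h1 : P.height = 1) {x y : A} {i j : ℕ} (hx : InSymb P i x) (hy : HasOrd P y j) (hji : j ≤ i) :
    ∃ t, t ∉ P ∧ y ∣ t * x := by
  have hle : P.primeCompl ≤ nonZeroDivisors A := P.primeCompl_le_nonZeroDivisors
  have hdom : IsDomain (Localization.AtPrime P) := IsLocalization.isDomain_localization hle
  have hdvr := C3_dvr P h1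
  have hinj : Function.Injective (algebraMap A (Localization.AtPrime P)) :=
    IsLocalization.injective _ hle
  obtain ⟨ϖ, hϖ⟩ := IsDiscreteValuationRing.exists_irreducible (Localization.AtPrime P)
  have hsymb : ∀ (k : ℕ) (x : A), InSymb P k x ↔
      (k : ℕ∞) ≤ IsDiscreteValuationRing.addVal (Localization.AtPrime P) (algebraMap A _ x) := by
    intro k x
    rw [← hϖ.addVal_pow k, IsDiscreteValuationRing.addVal_le_iff_dvd, ← Ideal.mem_span_singleton,
      ← Ideal.span_singleton_pow, ← hϖ.maximalIdeal_eq, ← Localization.AtPrime.map_eq_maximalIdeal,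
      ← Ideal.map_pow, IsLocalization.algebraMap_mem_map_algebraMap_iff P.primeCompl]
    rfl
  have hy' := (C3_hasOrd_iff (P := P)
    (v := fun x => IsDiscreteValuationRing.addVal (Localization.AtPrime P) (algebraMap A _ x))
    (fun k x => hsymb k x) y j).1 hy
  have hle2 : IsDiscreteValuationRing.addVal (Localization.AtPrime P) (algebraMap A _ y) ≤
      IsDiscreteValuationRing.addVal (Localization.AtPrime P) (algebraMap A _ x) := by
    rw [hy']
    refine le_trans ?_ ((hsymb i x).1 hx)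
    exact_mod_cast hji
  rw [IsDiscreteValuationRing.addVal_le_iff_dvd] at hle2
  obtain ⟨c, hc⟩ := hle2
  obtain ⟨a, s, has⟩ := IsLocalization.exists_mk'_eq P.primeCompl c
  refine ⟨s, s.2, a, ?_⟩
  apply hinj
  rw [map_mul, map_mul, hc, ← has, mul_comm, mul_assoc, IsLocalization.mk'_spec]

/-- A normal Noetherian domain is locally the intersection of its localisations at primes of height one. -/
theorem local_dvd [IsDomain A] [IsNoetherianRing A] [IsIntegrallyClosed A] (𝔪 : Ideal A) [h𝔪 : 𝔪.IsPrime]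
    {x y : A} (hy : y ≠ 0)
    (h : ∀ P : PrimeDivisor A, P.1 ≤ 𝔪 → ∃ i j : ℕ, InSymb P.1 i x ∧ HasOrd P.1 y j ∧ j ≤ i) :
    ∃ s, s ∉ 𝔪 ∧ y ∣ s * x := by
  by_contra hcon
  push Not at hcon
  obtain ⟨w, hprime, hle, hx⟩ := exists_col 𝔪 hcon
  have h1 := height_col hy hprime
  obtain ⟨i, j, hi, hj, hji⟩ := h ⟨col y w, hprime, h1⟩ hle
  obtain ⟨t, ht, htx⟩ := ord_dvd (col y w) hprime h1 hi hj hji
  exact ht (hx t htx)

end Comm

/-- The final contradiction in two variables. -/
theorem two_variables {c g g' s s' : MvPolynomial (Fin 2) ℂ} {N : ℕ}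
    (hc : MvPolynomial.eval 0 c = 0) (hs : MvPolynomial.eval 0 s ≠ 0) (hs' : MvPolynomial.eval 0 s' ≠ 0)
    (h1 : c * g = s * MvPolynomial.X 0 ^ N) (h2 : c * g' = s' * MvPolynomial.X 1 ^ N) : False := by
  have hs0 : s ≠ 0 := by
    rintro rfl
    exact hs (map_zero _)
  have hc0 : c ≠ 0 := by
    rintro rfl
    rw [zero_mul] at h1
    exact (mul_ne_zero hs0 (pow_ne_zero N (MvPolynomial.X_ne_zero _))) h1.symm
  obtain ⟨f, hf, hfc⟩ := UniqueFactorizationMonoid.exists_prime_factors c hc0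
  have hex : ∃ π ∈ f, MvPolynomial.eval 0 π = 0 := by
    obtain ⟨u, hu⟩ := hfc
    have h3 : MvPolynomial.eval 0 f.prod * MvPolynomial.eval 0 (u : MvPolynomial (Fin 2) ℂ) = 0 := by
      rw [← map_mul, hu, hc]
    have hu0 : MvPolynomial.eval (0 : Fin 2 → ℂ) (u : MvPolynomial (Fin 2) ℂ) ≠ 0 :=
      (u.isUnit.map (MvPolynomial.eval (0 : Fin 2 → ℂ))).ne_zero
    have h4 : MvPolynomial.eval 0 f.prod = 0 := (mul_eq_zero.1 h3).resolve_right hu0
    rw [map_multiset_prod, Multiset.prod_eq_zero_iff, Multiset.mem_map] at h4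
    exact h4
  obtain ⟨π, hπf, hπ0⟩ := hex
  have hπ := hf π hπf
  have hπc : π ∣ c := (Multiset.dvd_prod hπf).trans hfc.dvd
  have key : ∀ (t k : MvPolynomial (Fin 2) ℂ) (i : Fin 2), MvPolynomial.eval 0 t ≠ 0 →
      c * k = t * MvPolynomial.X i ^ N → Associated π (MvPolynomial.X i) := by
    intro t k i ht hk
    have h5 : π ∣ t * MvPolynomial.X i ^ N := by
      rw [← hk]
      exact Dvd.dvd.mul_right hπc k
    rcases hπ.dvd_or_dvd h5 with h6 | h6
    · exfalso
      obtain ⟨m, rfl⟩ := h6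
      apply ht
      rw [map_mul, hπ0, zero_mul]
    · have h7 : π ∣ MvPolynomial.X i := hπ.dvd_of_dvd_pow h6
      exact hπ.irreducible.associated_of_dvd (MvPolynomial.X_prime).irreducible h7
  have ha := key s g 0 hs h1
  have hb := key s' g' 1 hs' h2
  have hd : (MvPolynomial.X 0 : MvPolynomial (Fin 2) ℂ) ∣ MvPolynomial.X 1 := (ha.symm.trans hb).dvd
  obtain ⟨m, hm⟩ := hd
  have h8 := congrArg (MvPolynomial.eval (fun i : Fin 2 => if i = 0 then (0 : ℂ) else 1)) hm
  rw [map_mul, MvPolynomial.eval_X, MvPolynomial.eval_X] at h8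
  simp at h8

/-- The criterion. -/
theorem core {A : Type*} [CommRing A] (hQ : IsQFactorial A) (F1 F2 H K : A) (hrel : F2 * H = -(F1 * K))
    (ρ : A →+* MvPolynomial (Fin 2) ℂ) (τ : A →+* Polynomial ℂ)
    (hsurj : Function.Surjective ((MvPolynomial.eval (0 : Fin 2 → ℂ)).comp ρ))
    (hρ1 : ρ F1 = MvPolynomial.X 0) (hρ2 : ρ F2 = MvPolynomial.X 1) (hτ1 : τ F1 = 0) (hτ2 : τ H ≠ 0)
    (hcomp : ∀ f, MvPolynomial.eval 0 (ρ f) = Polynomial.eval 0 (τ f)) : False := by
  have := hQ.isDomain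
  have := hQ.noetherian
  have := hQ.normal
  -- the maximal ideal
  set 𝔪 : Ideal A := RingHom.ker ((MvPolynomial.eval (0 : Fin 2 → ℂ)).comp ρ) with h𝔪def
  have hmax : 𝔪.IsMaximal := RingHom.ker_isMaximal_of_surjective _ hsurj
  have h𝔪 : 𝔪.IsPrime := hmax.isPrime
  have hmem𝔪 : ∀ f, f ∈ 𝔪 ↔ MvPolynomial.eval 0 (ρ f) = 0 := fun f => Iff.rfl
  have hP'prime : (RingHom.ker τ).IsPrime := RingHom.ker_isPrime τ
  -- the prime divisor
  obtain ⟨P, hPmin, hPle⟩ := Ideal.exists_minimalPrimes_le (I := Ideal.span {F1}) (J := RingHom.ker τ) (by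
    rw [Ideal.span_le, Set.singleton_subset_iff]
    exact hτ1)
  have hP : P.IsPrime := hPmin.1.1
  have hF1 : F1 ∈ P := hPmin.1.2 (Ideal.mem_span_singleton_self F1)
  have hF10 : F1 ≠ 0 := by
    rintro rfl
    rw [map_zero] at hρ1
    exact MvPolynomial.X_ne_zero _ hρ1.symm
  have h1 : P.height = 1 := by
    refine le_antisymm (Ideal.height_le_one_of_isPrincipal_of_mem_minimalPrimes (Ideal.span {F1}) P hPmin) ?_
    rw [ENat.one_le_iff_ne_zero, Ne, Ideal.height_eq_zero_iff_eq_bot]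
    intro h
    rw [h] at hF1
    exact hF10 hF1
  have hF2 : F2 ∈ P := by
    have h2 : F2 * H ∈ P := by
      rw [hrel]
      exact P.neg_mem (P.mul_mem_right K hF1)
    rcases hP.mem_or_mem h2 with h3 | h3
    · exact h3
    · exact absurd (hPle h3) hτ2
  have hP𝔪 : P ≤ 𝔪 := by
    intro f hf
    rw [hmem𝔪, hcomp]
    have h2 : τ f = 0 := hPle hf
    rw [h2, Polynomial.eval_zero]
  -- the Cartier divisor
  obtain ⟨N, hN, hcart⟩ := hQ.exists_cartier (Finsupp.single ⟨P, hP, h1⟩ 1)
  obtain ⟨a, b, ha, hb, hab⟩ := hcart 𝔪 hmax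
  have hE : ∀ Q : PrimeDivisor A, ((N • (Finsupp.single (⟨P, hP, h1⟩ : PrimeDivisor A) (1 : ℤ)) :
      PrimeDivisor A →₀ ℤ)) Q = if Q = ⟨P, hP, h1⟩ then (N : ℤ) else 0 := by
    intro Q
    rw [Finsupp.smul_apply, Finsupp.single_apply]
    by_cases hQP : Q = ⟨P, hP, h1⟩
    · rw [if_pos hQP, if_pos hQP.symm]
      simp
    · rw [if_neg hQP, if_neg (fun h => hQP h.symm)]
      simp
  obtain ⟨s', hs', c, hc⟩ := local_dvd 𝔪 (x := a) (y := b) hb (by
    intro Q hQ
    obtain ⟨i, j, hi, hj, hij⟩ := hab Q hQ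
    refine ⟨i, j, hi.1, hj, ?_⟩
    rw [hE] at hij
    split_ifs at hij <;> omega)
  have hF : ∀ F ∈ P, ∃ s, s ∉ 𝔪 ∧ a ∣ s * (F ^ N * b) := by
    intro F hFP
    apply local_dvd 𝔪 ha
    intro Q hQ
    obtain ⟨i, j, hi, hj, hij⟩ := hab Q hQ
    rw [hE] at hij
    by_cases hQP : Q = ⟨P, hP, h1⟩
    · rw [if_pos hQP] at hij
      refine ⟨N + j, i, ?_, hi, by omega⟩
      obtain ⟨t, ht, htb⟩ := hj.1
      refine ⟨t, ht, ?_⟩
      have e : t * (F ^ N * b) = F ^ N * (t * b) := by ring
      rw [e, pow_add]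
      apply Ideal.mul_mem_mul _ htb
      apply Ideal.pow_mem_pow
      rw [hQP]
      exact hFP
    · rw [if_neg hQP] at hij
      refine ⟨j, i, ?_, hi, by omega⟩
      obtain ⟨t, ht, htb⟩ := hj.1
      refine ⟨t, ht, ?_⟩
      have e : t * (F ^ N * b) = F ^ N * (t * b) := by ring
      rw [e]
      exact Ideal.mul_mem_left _ _ htb
  have hcP : c ∈ P := by
    by_contra hcon
    obtain ⟨v, hv0, hv1, hv2, hv3, -⟩ := C3_ord P hP h1
    obtain ⟨i, j, hi, hj, hij⟩ := hab ⟨P, hP, h1⟩ hP𝔪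
    rw [hE, if_pos rfl] at hij
    rw [C3_hasOrd_iff hv2] at hi hj
    have hvc : v c = 0 := by
      by_contra h0
      have h2 : ((1 : ℕ) : ℕ∞) ≤ v c := by
        rw [Nat.cast_one, ENat.one_le_iff_ne_zero]
        exact h0
      obtain ⟨t, ht, htc⟩ := (hv2 1 c).2 h2
      rw [pow_one] at htc
      rcases hP.mem_or_mem htc with h3 | h3
      · exact ht h3
      · exact hcon h3
    have h4 := congrArg v hc
    rw [hv1, hv1, hi, hj, hvc, add_zero] at h4
    have h5 : ((i : ℕ) : ℕ∞) ≤ (j : ℕ∞) := by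
      rw [← h4]
      exact le_add_self
    have h6 : i ≤ j := by exact_mod_cast h5
    omega
  have key : ∀ F ∈ P, ∃ s g, s ∉ 𝔪 ∧ c * g = s * F ^ N := by
    intro F hFP
    obtain ⟨s, hs, g, hg⟩ := hF F hFP
    refine ⟨s' * s, g, fun h => ?_, ?_⟩
    · rcases h𝔪.mem_or_mem h with h | h
      · exact hs' h
      · exact hs h
    · apply mul_left_cancel₀ hb
      calc b * (c * g) = (b * c) * g := by ring
        _ = s' * (a * g) := by rw [← hc]; ring
        _ = s' * (s * (F ^ N * b)) := by rw [← hg]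
        _ = b * (s' * s * F ^ N) := by ring
  obtain ⟨s1, g1, hs1, hg1⟩ := key F1 hF1
  obtain ⟨s2, g2, hs2, hg2⟩ := key F2 hF2
  have r1 := congrArg ρ hg1
  have r2 := congrArg ρ hg2
  rw [map_mul, map_mul, map_pow, hρ1] at r1
  rw [map_mul, map_mul, map_pow, hρ2] at r2
  exact two_variables ((hmem𝔪 c).1 (hP𝔪 hcP)) (fun h => hs1 ((hmem𝔪 s1).2 h))
    (fun h => hs2 ((hmem𝔪 s2).2 h)) r1 r2

end HR2
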