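import Pool.Agent.HamRed.Defs

/-!
# MP_3b8a02_ag, Q2: symplectic representations, largeness, Hamiltonian reduction

`G ≤ GL(U)`, `U = ℂ^ι`, is a Zariski closed subgroup preserving the symplectic form `ω(u, v) = uᵀ J v`.
`IsZariskiClosed`, `lieAlg`, `charSpace`, `IsQFactorial` are those of `Pool.Agent.HamRed.Defs`.
-/

open MvPolynomial

namespace HR2

open HamRed

variable {ι : Type} [Fintype ι] [DecidableEq ι]

/-- `G` is reductive: its unipotent radical is trivial. (In characteristic zero: every normal subgroup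
consisting of unipotent matrices is trivial.) -/
def IsReductive (G : Subgroup (GL ι ℂ)) : Prop :=
  ∀ N : Subgroup (GL ι ℂ), N ≤ G → (∀ g ∈ G, ∀ x ∈ N, g * x * g⁻¹ ∈ N) →
    (∀ x ∈ N, IsNilpotent (x.val - 1)) → N = ⊥

/-- `ω(u, v) = uᵀ J v` is a symplectic form. -/
def IsSymplecticForm (J : Matrix ι ι ℂ) : Prop := J.transpose = -J ∧ IsUnit J.det

/-- `G` preserves `ω`. -/
def PreservesForm (G : Subgroup (GL ι ℂ)) (J : Matrix ι ι ℂ) : Prop :=
  ∀ g ∈ G, g.val.transpose * J * g.val = J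

/-- The stabiliser `G_v`. -/
def stab (G : Subgroup (GL ι ℂ)) (v : ι → ℂ) : Set (GL ι ℂ) := {g | g ∈ G ∧ g.val.mulVec v = v}

/-- The stabiliser `𝔤_v` of `v`; it is the Lie algebra of `G_v`. -/
def lieStab (G : Subgroup (GL ι ℂ)) (v : ι → ℂ) : Submodule ℂ (lieAlg G) where
  carrier := {y | y.val.mulVec v = 0}
  add_mem' := by
    intro y z hy hz
    have hy' : y.val.mulVec v = 0 := hy
    have hz' : z.val.mulVec v = 0 := hz
    show (y + z).val.mulVec v = 0
    rw [Submodule.coe_add, Matrix.add_mulVec, hy', hz', add_zero]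
  zero_mem' := by
    show (0 : lieAlg G).val.mulVec v = 0
    rw [Submodule.coe_zero, Matrix.zero_mulVec]
  smul_mem' := by
    intro c y hy
    have hy' : y.val.mulVec v = 0 := hy
    show (c • y).val.mulVec v = 0
    rw [Submodule.coe_smul, Matrix.smul_mulVec, hy', smul_zero]

/-- The dimension of `G_v`. -/
noncomputable def stabDim (G : Subgroup (GL ι ℂ)) (v : ι → ℂ) : ℕ := Module.finrank ℂ (lieStab G v)

/-- The number of connected components of `G_v` (a set of matrices with its usual topology). -/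
noncomputable def stabComp (G : Subgroup (GL ι ℂ)) (v : ι → ℂ) : Cardinal :=
  Cardinal.mk (ConnectedComponents ((fun g : GL ι ℂ => g.val) '' stab G v))

/-- The orbit of `v`. -/
def orbit (G : Subgroup (GL ι ℂ)) (v : ι → ℂ) : Set (ι → ℂ) := {w | ∃ g ∈ G, w = g.val.mulVec v}

/-- The orbit of `v` is Zariski closed. -/
def IsClosedOrbit (G : Subgroup (GL ι ℂ)) (v : ι → ℂ) : Prop :=
  ∃ T : Set (MvPolynomial ι ℂ), ∀ w, w ∈ orbit G v ↔ ∀ P ∈ T, MvPolynomial.eval w P = 0

/-- `m`: the smallest dimension of the stabiliser of a point with closed orbit. -/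
noncomputable def minDim (G : Subgroup (GL ι ℂ)) : ℕ :=
  sInf {d | ∃ v, IsClosedOrbit G v ∧ stabDim G v = d}

/-- The set of the points with closed orbit and stabiliser of dimension `m`. -/
def minSet (G : Subgroup (GL ι ℂ)) : Set (ι → ℂ) := {v | IsClosedOrbit G v ∧ stabDim G v = minDim G}

/-- The set `U'`: the points of `minSet` whose stabilisers have the smallest number of connected
components. -/
def principalSet (G : Subgroup (GL ι ℂ)) : Set (ι → ℂ) :=
  {v | v ∈ minSet G ∧ ∀ w ∈ minSet G, stabComp G v ≤ stabComp G w}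

/-- Codimension of a subset of `U`: the height of its vanishing ideal (`⊤` for the empty set). -/
noncomputable def codim (S : Set (ι → ℂ)) : ℕ∞ := (MvPolynomial.vanishingIdeal ℂ S).height

/-- `U` is a `k`-large representation of `G`. -/
structure IsLarge (k : ℕ) (G : Subgroup (GL ι ℂ)) : Prop where
  minDim_eq : minDim G = 0
  codim_principal : (k : ℕ∞) ≤ codim (principalSet G)ᶜ
  codim_strata : ∀ r : ℕ, 1 ≤ r → r ≤ Module.finrank ℂ (lieAlg G) →
    ((r + k : ℕ) : ℕ∞) ≤ codim {v | stabDim G v = r}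

/-- The polynomial function `μ(u)(y) = ½ ω(y u, u)` on `U`, for a matrix `y`. -/
noncomputable def momentPoly (J y : Matrix ι ι ℂ) : MvPolynomial ι ℂ :=
  C (1 / 2) * ∑ i, ∑ j, (∑ k, C (y i k) * X k) * (C (J i j) * X j)

/-- The ideal of the fibre `μ⁻¹(χ)`. -/
noncomputable def momentIdeal (G : Subgroup (GL ι ℂ)) (J : Matrix ι ι ℂ)
    (χ : Module.Dual ℂ (lieAlg G)) : Ideal (MvPolynomial ι ℂ) :=
  Ideal.span {P | ∃ y : lieAlg G, P = momentPoly J y.val - C (χ y)}

/-- The action of `g` on polynomial functions: `(P ∘ g)(u) = P(g u)`. -/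
noncomputable def actPoly (g : Matrix ι ι ℂ) : MvPolynomial ι ℂ →ₐ[ℂ] MvPolynomial ι ℂ :=
  MvPolynomial.bind₁ (fun i => ∑ j, C (g i j) * X j)

/-- The class of `P` in `ℂ[U] / I` is `G`-invariant. -/
def IsInvMod (G : Subgroup (GL ι ℂ)) (I : Ideal (MvPolynomial ι ℂ)) (P : MvPolynomial ι ℂ) : Prop :=
  ∀ g ∈ G, actPoly g.val P - P ∈ I

theorem isInvMod_add (G : Subgroup (GL ι ℂ)) (I : Ideal (MvPolynomial ι ℂ)) {P Q : MvPolynomial ι ℂ}
    (hP : IsInvMod G I P) (hQ : IsInvMod G I Q) : IsInvMod G I (P + Q) := by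
  intro g hg
  have e : actPoly g.val (P + Q) - (P + Q) = (actPoly g.val P - P) + (actPoly g.val Q - Q) := by
    rw [map_add]; ring
  rw [e]
  exact I.add_mem (hP g hg) (hQ g hg)

theorem isInvMod_mul (G : Subgroup (GL ι ℂ)) (I : Ideal (MvPolynomial ι ℂ)) {P Q : MvPolynomial ι ℂ}
    (hP : IsInvMod G I P) (hQ : IsInvMod G I Q) : IsInvMod G I (P * Q) := by
  intro g hg
  have e : actPoly g.val (P * Q) - P * Q =
      actPoly g.val Q * (actPoly g.val P - P) + P * (actPoly g.val Q - Q) := by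
    rw [map_mul]; ring
  rw [e]
  exact I.add_mem (I.mul_mem_left _ (hP g hg)) (I.mul_mem_left _ (hQ g hg))

theorem isInvMod_C (G : Subgroup (GL ι ℂ)) (I : Ideal (MvPolynomial ι ℂ)) (c : ℂ) :
    IsInvMod G I (C c) := by
  intro g _
  have e : actPoly g.val (C c) = C c := by
    rw [actPoly, MvPolynomial.bind₁_C_right]
  rw [e, sub_self]
  exact I.zero_mem

/-- The ring `(ℂ[U] / I)^G`. -/
noncomputable def invRing (G : Subgroup (GL ι ℂ)) (I : Ideal (MvPolynomial ι ℂ)) :
    Subalgebra ℂ (MvPolynomial ι ℂ ⧸ I) where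
  carrier := {f | ∃ P, IsInvMod G I P ∧ Ideal.Quotient.mk I P = f}
  mul_mem' := by
    rintro _ _ ⟨P, hP, rfl⟩ ⟨Q, hQ, rfl⟩
    exact ⟨P * Q, isInvMod_mul G I hP hQ, map_mul _ _ _⟩
  add_mem' := by
    rintro _ _ ⟨P, hP, rfl⟩ ⟨Q, hQ, rfl⟩
    exact ⟨P + Q, isInvMod_add G I hP hQ, map_add _ _ _⟩
  algebraMap_mem' := fun c => ⟨C c, isInvMod_C G I c, rfl⟩

/-- The reduction `μ⁻¹(χ)//G = Spec ℂ[μ⁻¹(χ)]^G` is `ℚ`-factorial; the fibre `μ⁻¹(χ)` is taken with
its scheme structure. -/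
def QFactorialReduction (G : Subgroup (GL ι ℂ)) (J : Matrix ι ι ℂ) (χ : Module.Dual ℂ (lieAlg G)) : Prop :=
  IsQFactorial (invRing G (momentIdeal G J χ))

/-- The same for the fibre with its reduced structure. -/
def QFactorialReductionRed (G : Subgroup (GL ι ℂ)) (J : Matrix ι ι ℂ)
    (χ : Module.Dual ℂ (lieAlg G)) : Prop :=
  IsQFactorial (invRing G (momentIdeal G J χ).radical)

end HR2
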