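import Pool.Agent.HamRed.G1
import Pool.Agent.Hhelper57.HR2Defs

/-!
# MP_3b8a02_ag, Q2: the group `SL₂(ℂ)` acting on `ℂ² ⊗ ℂ⁶`

A point of `U = ℂ² ⊗ ℂ⁶` is a pair `(a, b)` of vectors of `ℂ⁶`; the matrix `[[p, q], [r, s]]` maps it to
`(p a + q b, r a + s b)`.
-/

set_option linter.all false

open MvPolynomial

namespace HR2

open HamRed

/-- The index set of the coordinates of `U`. -/
abbrev Ix : Type := Fin 6 ⊕ Fin 6

/-- The matrix `[[p, q], [r, s]] ⊗ 1`. -/
noncomputable def emb (p q r s : ℂ) : Matrix Ix Ix ℂ :=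
  Matrix.fromBlocks (p • 1) (q • 1) (r • 1) (s • 1)

/-- The matrix of the split symmetric form of `ℂ⁶`. -/
noncomputable def S6 : Matrix (Fin 6) (Fin 6) ℂ := fun i j => if j = i + 3 then 1 else 0

/-- The symplectic form of `ℂ² ⊗ ℂ⁶`. -/
noncomputable def J6 : Matrix Ix Ix ℂ := Matrix.fromBlocks 0 S6 (-S6) 0

theorem emb_mul (p q r s p' q' r' s' : ℂ) :
    emb p q r s * emb p' q' r' s' =
      emb (p * p' + q * r') (p * q' + q * s') (r * p' + s * r') (r * q' + s * s') := by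
  unfold emb
  rw [Matrix.fromBlocks_multiply]
  congr 1 <;> simp [smul_smul, add_smul, mul_comm]

theorem emb_one : emb 1 0 0 1 = 1 := by
  unfold emb
  rw [one_smul, zero_smul, Matrix.fromBlocks_one]

theorem emb_eq_one {p q r s : ℂ} (h1 : p = 1) (h2 : q = 0) (h3 : r = 0) (h4 : s = 1) : emb p q r s = 1 := by
  rw [h1, h2, h3, h4, emb_one]

theorem emb_inj {p q r s p' q' r' s' : ℂ} (h : emb p q r s = emb p' q' r' s') :
    p = p' ∧ q = q' ∧ r = r' ∧ s = s' := by
  refine ⟨?_, ?_, ?_, ?_⟩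
  · simpa [emb] using congrFun (congrFun h (Sum.inl 0)) (Sum.inl 0)
  · simpa [emb] using congrFun (congrFun h (Sum.inl 0)) (Sum.inr 0)
  · simpa [emb] using congrFun (congrFun h (Sum.inr 0)) (Sum.inl 0)
  · simpa [emb] using congrFun (congrFun h (Sum.inr 0)) (Sum.inr 0)

/-- `SL₂(ℂ)` as a subgroup of `GL(U)`. -/
noncomputable def G6 : Subgroup (GL Ix ℂ) where
  carrier := {M | ∃ p q r s : ℂ, p * s - q * r = 1 ∧ M.val = emb p q r s}
  mul_mem' := by
    rintro M M' ⟨p, q, r, s, h, e⟩ ⟨p', q', r', s', h', e'⟩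
    refine ⟨p * p' + q * r', p * q' + q * s', r * p' + s * r', r * q' + s * s', ?_, ?_⟩
    · linear_combination (p' * s' - q' * r') * h + h'
    · rw [Units.val_mul, e, e', emb_mul]
  one_mem' := ⟨1, 0, 0, 1, by ring, by rw [emb_one]; rfl⟩
  inv_mem' := by
    rintro M ⟨p, q, r, s, h, e⟩
    refine ⟨s, -q, -r, p, by linear_combination h, ?_⟩
    have h1 : M.val * emb s (-q) (-r) p = 1 := by
      rw [e, emb_mul]
      exact emb_eq_one (by linear_combination h) (by ring) (by ring) (by linear_combination h)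
    have h2 : M⁻¹.val * M.val = 1 := by rw [← Units.val_mul, inv_mul_cancel, Units.val_one]
    calc M⁻¹.val = M⁻¹.val * (M.val * emb s (-q) (-r) p) := by rw [h1, mul_one]
      _ = emb s (-q) (-r) p := by rw [← mul_assoc, h2, one_mul]

theorem mem_G6 {M : GL Ix ℂ} : M ∈ G6 ↔ ∃ p q r s : ℂ, p * s - q * r = 1 ∧ M.val = emb p q r s := Iff.rfl

/-- The element of `GL(U)` given by a matrix of determinant one. -/
noncomputable def embGL (p q r s : ℂ) (h : p * s - q * r = 1) : GL Ix ℂ where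
  val := emb p q r s
  inv := emb s (-q) (-r) p
  val_inv := by
    rw [emb_mul]
    exact emb_eq_one (by linear_combination h) (by ring) (by ring) (by linear_combination h)
  inv_val := by
    rw [emb_mul]
    exact emb_eq_one (by linear_combination h) (by ring) (by ring) (by linear_combination h)

theorem embGL_mem (p q r s : ℂ) (h : p * s - q * r = 1) : embGL p q r s h ∈ G6 := ⟨p, q, r, s, h, rfl⟩

theorem emb_mulVec (p q r s : ℂ) (v : Ix → ℂ) :
    (emb p q r s).mulVec v = Sum.elim (fun i => p * v (Sum.inl i) + q * v (Sum.inr i))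
      (fun i => r * v (Sum.inl i) + s * v (Sum.inr i)) := by
  unfold emb
  rw [Matrix.fromBlocks_mulVec]
  funext i
  rcases i with i | i <;> simp [Matrix.smul_mulVec, Function.comp]

/-! ### The Zariski closed subgroup and its Lie algebra -/

/-- The differential at `1`. -/
noncomputable def dif (y : Matrix Ix Ix ℂ) (P : MvPolynomial (Ix × Ix) ℂ) : ℂ :=
  ∑ p : Ix × Ix, matEval (pderiv p P) 1 * y p.1 p.2

theorem dif_X (y : Matrix Ix Ix ℂ) (q : Ix × Ix) : dif y (X q) = y q.1 q.2 := by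
  unfold dif matEval
  rw [Finset.sum_eq_single q]
  · simp
  · intro b _ hb
    rw [MvPolynomial.pderiv_X, Pi.single_eq_of_ne (Ne.symm hb)]
    simp
  · intro h
    exact absurd (Finset.mem_univ q) h

theorem dif_sub (y : Matrix Ix Ix ℂ) (P Q : MvPolynomial (Ix × Ix) ℂ) :
    dif y (P - Q) = dif y P - dif y Q := by
  unfold dif matEval
  rw [← Finset.sum_sub_distrib]
  refine Finset.sum_congr rfl (fun p _ => ?_)
  rw [map_sub, map_sub, sub_mul]

theorem dif_mul (y : Matrix Ix Ix ℂ) (P Q : MvPolynomial (Ix × Ix) ℂ) :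
    dif y (P * Q) = matEval P 1 * dif y Q + matEval Q 1 * dif y P := by
  unfold dif matEval
  rw [Finset.mul_sum, Finset.mul_sum, ← Finset.sum_add_distrib]
  refine Finset.sum_congr rfl (fun p _ => ?_)
  rw [Derivation.leibniz, smul_eq_mul, smul_eq_mul, map_add, map_mul, map_mul]
  ring

theorem dif_one (y : Matrix Ix Ix ℂ) : dif y 1 = 0 := by
  unfold dif matEval
  refine Finset.sum_eq_zero (fun p _ => ?_)
  rw [MvPolynomial.pderiv_one, map_zero, zero_mul]

/-- The equations of `G6`: off-diagonal entries. -/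
noncomputable def eqOff (k l : Fin 6 → Ix) (i j : Fin 6) : MvPolynomial (Ix × Ix) ℂ := X (k i, l j)

/-- The equations of `G6`: equal diagonal entries. -/
noncomputable def eqDiag (k l : Fin 6 → Ix) (i : Fin 6) : MvPolynomial (Ix × Ix) ℂ :=
  X (k i, l i) - X (k 0, l 0)

/-- The equation of `G6`: determinant. -/
noncomputable def eqDet : MvPolynomial (Ix × Ix) ℂ :=
  X (Sum.inl 0, Sum.inl 0) * X (Sum.inr 0, Sum.inr 0) - X (Sum.inl 0, Sum.inr 0) * X (Sum.inr 0, Sum.inl 0) - 1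

/-- All equations. -/
def eqs : Set (MvPolynomial (Ix × Ix) ℂ) :=
  {P | P = eqDet ∨ ∃ k l : Fin 6 → Ix, (k = Sum.inl ∨ k = Sum.inr) ∧ (l = Sum.inl ∨ l = Sum.inr) ∧
    ((∃ i, P = eqDiag k l i) ∨ ∃ i j, i ≠ j ∧ P = eqOff k l i j)}

theorem eqs_vanish {M : GL Ix ℂ} (hM : M ∈ G6) : ∀ P ∈ eqs, matEval P M.val = 0 := by
  obtain ⟨p, q, r, s, h, e⟩ := hM
  rintro P (rfl | ⟨k, l, hk, hl, (⟨i, rfl⟩ | ⟨i, j, hij, rfl⟩)⟩)
  · rw [e]
    simp [eqDet, matEval, emb]
    linear_combination h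
  · rw [e]
    rcases hk with rfl | rfl <;> rcases hl with rfl | rfl <;> simp [eqDiag, matEval, emb]
  · rw [e]
    rcases hk with rfl | rfl <;> rcases hl with rfl | rfl <;> simp [eqOff, matEval, emb, hij]

theorem of_eqs {M : Matrix Ix Ix ℂ}
    (hoff : ∀ k l : Fin 6 → Ix, (k = Sum.inl ∨ k = Sum.inr) → (l = Sum.inl ∨ l = Sum.inr) →
      ∀ i j, i ≠ j → M (k i) (l j) = 0)
    (hdiag : ∀ k l : Fin 6 → Ix, (k = Sum.inl ∨ k = Sum.inr) → (l = Sum.inl ∨ l = Sum.inr) →
      ∀ i, M (k i) (l i) = M (k 0) (l 0)) :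
    M = emb (M (Sum.inl 0) (Sum.inl 0)) (M (Sum.inl 0) (Sum.inr 0)) (M (Sum.inr 0) (Sum.inl 0))
      (M (Sum.inr 0) (Sum.inr 0)) := by
  have key : ∀ k l : Fin 6 → Ix, (k = Sum.inl ∨ k = Sum.inr) → (l = Sum.inl ∨ l = Sum.inr) →
      ∀ i j, M (k i) (l j) = M (k 0) (l 0) * (1 : Matrix (Fin 6) (Fin 6) ℂ) i j := by
    intro k l hk hl i j
    by_cases hij : i = j
    · subst hij
      rw [hdiag k l hk hl i, Matrix.one_apply_eq, mul_one]
    · rw [hoff k l hk hl i j hij, Matrix.one_apply_ne hij, mul_zero]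
  ext i j
  rcases i with i | i <;> rcases j with j | j
  · rw [key Sum.inl Sum.inl (Or.inl rfl) (Or.inl rfl)]; simp [emb]
  · rw [key Sum.inl Sum.inr (Or.inl rfl) (Or.inr rfl)]; simp [emb]
  · rw [key Sum.inr Sum.inl (Or.inr rfl) (Or.inl rfl)]; simp [emb]
  · rw [key Sum.inr Sum.inr (Or.inr rfl) (Or.inr rfl)]; simp [emb]

theorem G6_closed : IsZariskiClosed G6 := by
  refine ⟨eqs, fun M => ⟨fun h => eqs_vanish h, fun h => ?_⟩⟩
  have hM := of_eqs (M := M.val) (fun k l hk hl i j hij => by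
    have := h (eqOff k l i j) (Or.inr ⟨k, l, hk, hl, Or.inr ⟨i, j, hij, rfl⟩⟩)
    simpa [eqOff, matEval] using this) (fun k l hk hl i => by
    have := h (eqDiag k l i) (Or.inr ⟨k, l, hk, hl, Or.inl ⟨i, rfl⟩⟩)
    simp [eqDiag, matEval] at this
    exact sub_eq_zero.1 this)
  refine ⟨_, _, _, _, ?_, hM⟩
  have := h eqDet (Or.inl rfl)
  simp [eqDet, matEval] at this
  exact sub_eq_zero.1 this

theorem mem_lieAlg_of_tangent {y : Matrix Ix Ix ℂ} (hy : y ∈ lieAlg G6) :
    ∃ α β γ : ℂ, y = emb α β γ (-α) := by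
  have hd : ∀ P ∈ eqs, dif y P = 0 := fun P hP => hy P (fun g hg => eqs_vanish hg P hP)
  have hM := of_eqs (M := y) (fun k l hk hl i j hij => by
    have := hd (eqOff k l i j) (Or.inr ⟨k, l, hk, hl, Or.inr ⟨i, j, hij, rfl⟩⟩)
    rwa [eqOff, dif_X] at this) (fun k l hk hl i => by
    have := hd (eqDiag k l i) (Or.inr ⟨k, l, hk, hl, Or.inl ⟨i, rfl⟩⟩)
    rw [eqDiag, dif_sub, dif_X, dif_X] at this
    exact sub_eq_zero.1 this)
  have hdet := hd eqDet (Or.inl rfl)
  rw [eqDet, dif_sub, dif_sub, dif_mul, dif_mul, dif_one, dif_X, dif_X, dif_X, dif_X] at hdet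
  have h1 : y (Sum.inr 0) (Sum.inr 0) = -y (Sum.inl 0) (Sum.inl 0) := by
    simp [matEval] at hdet
    linear_combination hdet
  rw [h1] at hM
  exact ⟨_, _, _, hM⟩

/-- Nilpotent matrices are tangent. -/
theorem tangent_of_nilpotent {α β γ : ℂ} (h : α ^ 2 + β * γ = 0) : emb α β γ (-α) ∈ lieAlg G6 := by
  intro P hP
  have hder := G1_hasDerivAt_eval P (fun (u : ℂ) (p : Ix × Ix) => (1 + u • emb α β γ (-α)) p.1 p.2)
    (fun p => emb α β γ (-α) p.1 p.2) 0 (fun p => by
      simp only [Matrix.add_apply, Matrix.smul_apply, smul_eq_mul]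
      simpa using ((hasDerivAt_id (0 : ℂ)).mul_const (emb α β γ (-α) p.1 p.2)).const_add
        ((1 : Matrix Ix Ix ℂ) p.1 p.2))
  have hconst : (fun u : ℂ => MvPolynomial.eval (fun p : Ix × Ix => (1 + u • emb α β γ (-α)) p.1 p.2) P) =
      fun _ => 0 := by
    funext u
    have e : (1 : Matrix Ix Ix ℂ) + u • emb α β γ (-α) =
        emb (1 + u * α) (u * β) (u * γ) (1 - u * α) := by
      rw [← emb_one]
      unfold emb
      rw [Matrix.fromBlocks_smul, Matrix.fromBlocks_add]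
      congr 1 <;> simp [smul_smul, add_smul, sub_eq_add_neg, neg_smul]
    have h1 : (1 + u * α) * (1 - u * α) - u * β * (u * γ) = 1 := by
      linear_combination (-u ^ 2) * h
    have h2 := hP (embGL _ _ _ _ h1) (embGL_mem _ _ _ _ h1)
    rw [matEval] at h2
    rw [e]
    exact h2
  rw [hconst] at hder
  have h3 := hder.unique (hasDerivAt_const (0 : ℂ) (0 : ℂ))
  simp only [zero_smul, add_zero] at h3
  exact h3

theorem mem_lieAlg_iff {y : Matrix Ix Ix ℂ} : y ∈ lieAlg G6 ↔ ∃ α β γ : ℂ, y = emb α β γ (-α) := by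
  refine ⟨mem_lieAlg_of_tangent, ?_⟩
  rintro ⟨α, β, γ, rfl⟩
  have h1 : emb 0 1 0 (-0) ∈ lieAlg G6 := tangent_of_nilpotent (by ring)
  have h2 : emb 0 0 1 (-0) ∈ lieAlg G6 := tangent_of_nilpotent (by ring)
  have h3 : emb 1 (-1) 1 (-1) ∈ lieAlg G6 := tangent_of_nilpotent (by ring)
  have h4 := (lieAlg G6).add_mem ((lieAlg G6).add_mem ((lieAlg G6).smul_mem α h3)
    ((lieAlg G6).smul_mem (β + α) h1)) ((lieAlg G6).smul_mem (γ - α) h2)
  convert h4 using 1
  unfold emb
  rw [Matrix.fromBlocks_smul, Matrix.fromBlocks_smul, Matrix.fromBlocks_smul, Matrix.fromBlocks_add,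
    Matrix.fromBlocks_add]
  congr 1
  · simp
  · simp only [smul_zero, smul_smul]
    module
  · simp only [smul_zero, smul_smul]
    module
  · simp

/-! ### The symplectic form -/

theorem S6_symm : S6.transpose = S6 := by
  ext i j
  simp only [S6, Matrix.transpose_apply]
  fin_cases i <;> fin_cases j <;> simp

theorem S6_sq : S6 * S6 = 1 := by
  ext i j
  rw [Matrix.mul_apply]
  fin_cases i <;> fin_cases j <;> simp [S6, Fin.sum_univ_succ, Matrix.one_apply]

theorem J6_symplectic : IsSymplecticForm J6 := by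
  refine ⟨?_, ?_⟩
  · unfold J6
    rw [Matrix.fromBlocks_transpose, Matrix.fromBlocks_neg, Matrix.transpose_neg, S6_symm]
    simp
  · have h : J6 * (-J6) = 1 := by
      unfold J6
      rw [Matrix.fromBlocks_neg, Matrix.fromBlocks_multiply, ← Matrix.fromBlocks_one]
      congr 1 <;> simp [S6_sq]
    have h2 := congrArg Matrix.det h
    rw [Matrix.det_mul, Matrix.det_one] at h2
    exact IsUnit.of_mul_eq_one _ h2

theorem G6_preserves : PreservesForm G6 J6 := by
  rintro M ⟨p, q, r, s, h, e⟩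
  rw [e]
  unfold emb J6
  rw [Matrix.fromBlocks_transpose, Matrix.fromBlocks_multiply, Matrix.fromBlocks_multiply]
  simp only [Matrix.transpose_smul, Matrix.transpose_one, Matrix.smul_mul, Matrix.mul_smul,
    Matrix.one_mul, Matrix.mul_one, Matrix.mul_zero, Matrix.zero_mul, smul_smul, smul_neg, smul_zero,
    zero_add, add_zero, Matrix.mul_neg, Matrix.neg_mul]
  congr 1
  · module
  · have e1 : -((q * r) • S6) + (s * p) • S6 = (p * s - q * r) • S6 := by module
    rw [e1, h, one_smul]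
  · have e1 : -((p * s) • S6) + (r * q) • S6 = -((p * s - q * r) • S6) := by module
    rw [e1, h, one_smul]
  · module

/-! ### `G6` is reductive -/

theorem trace_of_nilpotent {p q r s : ℂ} (h : IsNilpotent (emb p q r s - 1)) : p + s = 2 := by
  have h1 := (Matrix.isNilpotent_trace_of_isNilpotent h).eq_zero
  rw [Matrix.trace_sub, Matrix.trace_one] at h1
  have h2 : (emb p q r s).trace = 6 * p + 6 * s := by
    unfold emb Matrix.trace
    simp [Fintype.sum_sum_type]
  rw [h2] at h1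
  have h3 : (Fintype.card Ix : ℂ) = 12 := by
    rw [show Fintype.card Ix = 12 by rfl]
    norm_num
  rw [h3] at h1
  linear_combination h1 / 6

theorem G6_reductive : IsReductive G6 := by
  intro N hN hnorm hnil
  rw [eq_bot_iff]
  intro x hx
  obtain ⟨p, q, r, s, hdet, hxe⟩ := hN hx
  have htr : p + s = 2 := trace_of_nilpotent (by rw [← hxe]; exact hnil x hx)
  have key : ∀ a b c d : ℂ, a * d - b * c = 1 → ∀ p' q' r' s' : ℂ,
      emb a b c d * emb p q r s * emb d (-b) (-c) a * emb p q r s = emb p' q' r' s' → p' + s' = 2 := by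
    intro a b c d h p' q' r' s' he
    apply trace_of_nilpotent (q := q') (r := r')
    have h1 := hnil _ (N.mul_mem (hnorm _ (embGL_mem a b c d h) x hx) hx)
    have h2 : (embGL a b c d h * x * (embGL a b c d h)⁻¹ * x).val = emb p' q' r' s' := by
      rw [Units.val_mul, Units.val_mul, Units.val_mul, hxe, ← he]
      rfl
    rw [h2] at h1
    exact h1
  have k1 := key 1 1 0 1 (by ring) _ _ _ _ (by rw [emb_mul, emb_mul, emb_mul])
  have k2 := key 1 0 1 1 (by ring) _ _ _ _ (by rw [emb_mul, emb_mul, emb_mul])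
  have hr : r = 0 := by
    have h1 : r ^ 2 = 0 := by
      linear_combination (p + s + 2) * htr - 2 * hdet - k1
    exact pow_eq_zero_iff (two_ne_zero) |>.1 h1
  have hq : q = 0 := by
    have h1 : q ^ 2 = 0 := by
      linear_combination (p + s + 2) * htr - 2 * hdet - k2
    exact pow_eq_zero_iff (two_ne_zero) |>.1 h1
  have hp : p = 1 := by
    have h1 : (p - 1) ^ 2 = 0 := by
      rw [hr, hq] at hdet
      linear_combination p * htr - hdet
    exact sub_eq_zero.1 (pow_eq_zero_iff (two_ne_zero) |>.1 h1)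
  have hs : s = 1 := by
    rw [hp] at htr
    linear_combination htr
  rw [Subgroup.mem_bot]
  apply Units.ext
  rw [hxe, Units.val_one]
  exact emb_eq_one hp hq hr hs

/-! ### `𝔛 = 0` -/

theorem emb_add (p q r s p' q' r' s' : ℂ) :
    emb p q r s + emb p' q' r' s' = emb (p + p') (q + q') (r + r') (s + s') := by
  unfold emb
  rw [Matrix.fromBlocks_add]
  congr 1 <;> rw [add_smul]

theorem emb_smul (c p q r s : ℂ) : c • emb p q r s = emb (c * p) (c * q) (c * r) (c * s) := by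
  unfold emb
  rw [Matrix.fromBlocks_smul]
  congr 1 <;> rw [smul_smul]

theorem emb_sub (p q r s p' q' r' s' : ℂ) :
    emb p q r s - emb p' q' r' s' = emb (p - p') (q - q') (r - r') (s - s') := by
  unfold emb
  rw [sub_eq_add_neg, Matrix.fromBlocks_neg, Matrix.fromBlocks_add]
  congr 1 <;> module

/-- The elements of the Lie algebra. -/
noncomputable def yy (α β γ : ℂ) : lieAlg G6 := ⟨emb α β γ (-α), mem_lieAlg_iff.2 ⟨α, β, γ, rfl⟩⟩

theorem exists_yy (y : lieAlg G6) : ∃ α β γ, y = yy α β γ := by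
  obtain ⟨α, β, γ, h⟩ := mem_lieAlg_iff.1 y.2
  exact ⟨α, β, γ, Subtype.ext h⟩

theorem charSpace_eq {χ : Module.Dual ℂ (lieAlg G6)} (h : χ ∈ charSpace G6) : χ = 0 := by
  have hb : KillsBrackets G6 χ := h.2
  have h1 : χ (yy 1 0 0) = 0 := hb (yy 0 1 0) (yy 0 0 1) (yy 1 0 0) (by
    show emb _ _ _ _ = emb _ _ _ _ * emb _ _ _ _ - emb _ _ _ _ * emb _ _ _ _
    rw [emb_mul, emb_mul, emb_sub]
    congr 1 <;> ring)
  have h2 : χ (yy 0 2 0) = 0 := hb (yy 1 0 0) (yy 0 1 0) (yy 0 2 0) (by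
    show emb _ _ _ _ = emb _ _ _ _ * emb _ _ _ _ - emb _ _ _ _ * emb _ _ _ _
    rw [emb_mul, emb_mul, emb_sub]
    congr 1 <;> ring)
  have h3 : χ (yy 0 0 2) = 0 := hb (yy 0 0 1) (yy 1 0 0) (yy 0 0 2) (by
    show emb _ _ _ _ = emb _ _ _ _ * emb _ _ _ _ - emb _ _ _ _ * emb _ _ _ _
    rw [emb_mul, emb_mul, emb_sub]
    congr 1 <;> ring)
  ext y
  obtain ⟨α, β, γ, rfl⟩ := exists_yy y
  have e : yy α β γ = α • yy 1 0 0 + (β / 2) • yy 0 2 0 + (γ / 2) • yy 0 0 2 := by
    apply Subtype.ext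
    show emb _ _ _ _ = α • emb _ _ _ _ + (β / 2) • emb _ _ _ _ + (γ / 2) • emb _ _ _ _
    rw [emb_smul, emb_smul, emb_smul, emb_add, emb_add]
    congr 1 <;> ring
  rw [e, map_add, map_add, map_smul, map_smul, map_smul, h1, h2, h3]
  simp

end HR2
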