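import Pool.Agent.Hhelper57.HR2Core
import Pool.Agent.Hhelper57.HR2Group

/-!
# MP_3b8a02_ag, Q2: the reduction of `ℂ² ⊗ ℂ⁶` by `SL₂(ℂ)` is not ℚ-factorial
-/

set_option linter.all false

open MvPolynomial

namespace HR2

open HamRed

/-- The coordinates. -/
noncomputable abbrev va (i : Fin 6) : MvPolynomial Ix ℂ := X (Sum.inl i)

noncomputable abbrev vb (i : Fin 6) : MvPolynomial Ix ℂ := X (Sum.inr i)

/-- Plücker coordinates. -/
noncomputable def pl (i j : Fin 6) : MvPolynomial Ix ℂ := va i * vb j - va j * vb i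

theorem row_inl (p q r s : ℂ) (i : Fin 6) :
    (∑ k, C (emb p q r s (Sum.inl i) k) * X k : MvPolynomial Ix ℂ) = C p * va i + C q * vb i := by
  rw [Fintype.sum_sum_type]
  have hs : ∀ (c : ℂ) (f : Fin 6 → MvPolynomial Ix ℂ),
      ∑ x, C (if i = x then c else 0) * f x = C c * f i := by
    intro c f
    rw [Finset.sum_eq_single i]
    · rw [if_pos rfl]
    · intro x _ hx
      rw [if_neg (Ne.symm hx), C_0, zero_mul]
    · intro hi
      exact absurd (Finset.mem_univ i) hi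
  simp [emb, Matrix.one_apply, hs]

theorem row_inr (p q r s : ℂ) (i : Fin 6) :
    (∑ k, C (emb p q r s (Sum.inr i) k) * X k : MvPolynomial Ix ℂ) = C r * va i + C s * vb i := by
  rw [Fintype.sum_sum_type]
  have hs : ∀ (c : ℂ) (f : Fin 6 → MvPolynomial Ix ℂ),
      ∑ x, C (if i = x then c else 0) * f x = C c * f i := by
    intro c f
    rw [Finset.sum_eq_single i]
    · rw [if_pos rfl]
    · intro x _ hx
      rw [if_neg (Ne.symm hx), C_0, zero_mul]
    · intro hi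
      exact absurd (Finset.mem_univ i) hi
  simp [emb, Matrix.one_apply, hs]

theorem actPoly_va (p q r s : ℂ) (i : Fin 6) : actPoly (emb p q r s) (va i) = C p * va i + C q * vb i := by
  rw [actPoly, MvPolynomial.bind₁_X_right, row_inl]

theorem actPoly_vb (p q r s : ℂ) (i : Fin 6) : actPoly (emb p q r s) (vb i) = C r * va i + C s * vb i := by
  rw [actPoly, MvPolynomial.bind₁_X_right, row_inr]

theorem pl_inv (I : Ideal (MvPolynomial Ix ℂ)) (i j : Fin 6) : IsInvMod G6 I (pl i j) := by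
  rintro g ⟨p, q, r, s, h, e⟩
  have h1 : actPoly g.val (pl i j) = pl i j := by
    rw [e, pl, map_sub, map_mul, map_mul, actPoly_va, actPoly_va, actPoly_vb, actPoly_vb]
    have h2 : (C p * C s - C q * C r : MvPolynomial Ix ℂ) = 1 := by
      rw [← C_mul, ← C_mul, ← C_sub, h, C_1]
    linear_combination (va i * vb j - va j * vb i) * h2
  rw [h1, sub_self]
  exact I.zero_mem

theorem rowJ_inl (i : Fin 6) : (∑ j, C (J6 (Sum.inl i) j) * X j : MvPolynomial Ix ℂ) = vb (i + 3) := by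
  rw [Fintype.sum_sum_type]
  simp [J6, S6]

theorem rowJ_inr (i : Fin 6) : (∑ j, C (J6 (Sum.inr i) j) * X j : MvPolynomial Ix ℂ) = -va (i + 3) := by
  rw [Fintype.sum_sum_type]
  simp [J6, S6]

theorem momentPoly_eq (p q r s : ℂ) :
    momentPoly J6 (emb p q r s) =
      C (1 / 2) * (∑ i, (C p * va i + C q * vb i) * vb (i + 3) - ∑ i, (C r * va i + C s * vb i) * va (i + 3)) := by
  unfold momentPoly
  congr 1
  have h : ∀ i : Ix, ∑ j, (∑ k, C (emb p q r s i k) * X k) * (C (J6 i j) * X j) =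
      (∑ k, C (emb p q r s i k) * X k) * (∑ j, C (J6 i j) * X j : MvPolynomial Ix ℂ) := by
    intro i
    rw [Finset.mul_sum]
  rw [Finset.sum_congr rfl (fun i _ => h i), Fintype.sum_sum_type]
  simp only [row_inl, row_inr, rowJ_inl, rowJ_inr]
  rw [sub_eq_add_neg, ← Finset.sum_neg_distrib]
  congr 1
  refine Finset.sum_congr rfl (fun i _ => by ring)

theorem moment_mem (y : lieAlg G6) : momentPoly J6 y.val ∈ momentIdeal G6 J6 0 := by
  apply Ideal.subset_span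
  refine ⟨y, ?_⟩
  rw [LinearMap.zero_apply, C_0, sub_zero]

/-- The quadratic relation. -/
theorem relation : pl 0 1 * pl 0 4 + pl 0 2 * pl 0 5 ∈ momentIdeal G6 J6 0 := by
  have h1 := moment_mem (yy 1 0 0)
  have h2 := moment_mem (yy 0 1 0)
  have h3 := moment_mem (yy 0 0 1)
  have e : pl 0 1 * pl 0 4 + pl 0 2 * pl 0 5 =
      va 0 ^ 2 * momentPoly J6 (yy 0 1 0).val - va 0 * vb 0 * momentPoly J6 (yy 1 0 0).val
        - vb 0 ^ 2 * momentPoly J6 (yy 0 0 1).val := by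
    have e1 : (yy 0 1 0).val = emb 0 1 0 (-0) := rfl
    have e2 : (yy 1 0 0).val = emb 1 0 0 (-1) := rfl
    have e3 : (yy 0 0 1).val = emb 0 0 1 (-0) := rfl
    rw [e1, e2, e3, momentPoly_eq, momentPoly_eq, momentPoly_eq]
    simp only [Fin.sum_univ_six, neg_zero, C_0, C_1, map_neg, pl]
    have hh : (C (1 / 2) : MvPolynomial Ix ℂ) * 2 = 1 := by
      rw [show (2 : MvPolynomial Ix ℂ) = C 2 by rw [map_ofNat], ← C_mul]
      norm_num
    have s0 : (0 : Fin 6) + 3 = 3 := rfl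
    have s1 : (1 : Fin 6) + 3 = 4 := rfl
    have s2 : (2 : Fin 6) + 3 = 5 := rfl
    have s3 : (3 : Fin 6) + 3 = 0 := rfl
    have s4 : (4 : Fin 6) + 3 = 1 := rfl
    have s5 : (5 : Fin 6) + 3 = 2 := rfl
    rw [s0, s1, s2, s3, s4, s5]
    linear_combination (-(va 0 ^ 2 * (vb 0 * vb 3 + vb 1 * vb 4 + vb 2 * vb 5)) +
      va 0 * vb 0 * (va 0 * vb 3 + va 3 * vb 0 + va 1 * vb 4 + va 4 * vb 1 + va 2 * vb 5 + va 5 * vb 2) -
      vb 0 ^ 2 * (va 0 * va 3 + va 1 * va 4 + va 2 * va 5)) * hh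
  rw [e]
  exact Ideal.sub_mem _ (Ideal.sub_mem _ (Ideal.mul_mem_left _ _ h2) (Ideal.mul_mem_left _ _ h1))
    (Ideal.mul_mem_left _ _ h3)

/-- The substitution `a = e₀`, `b = x e₁ + y e₂`. -/
noncomputable def σ1 : Ix → MvPolynomial (Fin 2) ℂ :=
  Sum.elim ![1, 0, 0, 0, 0, 0] ![0, X 0, X 1, 0, 0, 0]

/-- The substitution `a = e₀`, `b = s e₅`. -/
noncomputable def σ2 : Ix → Polynomial ℂ :=
  Sum.elim ![1, 0, 0, 0, 0, 0] ![0, 0, 0, 0, 0, Polynomial.X]

theorem le_ker1 : momentIdeal G6 J6 0 ≤ RingHom.ker (aeval σ1 : MvPolynomial Ix ℂ →ₐ[ℂ] _) := by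
  unfold momentIdeal
  rw [Ideal.span_le]
  rintro _ ⟨y, rfl⟩
  obtain ⟨α, β, γ, rfl⟩ := exists_yy y
  have e1 : (yy α β γ).val = emb α β γ (-α) := rfl
  show aeval σ1 _ = 0
  rw [LinearMap.zero_apply, C_0, sub_zero, e1, momentPoly_eq]
  simp only [Fin.sum_univ_six, map_mul, map_sub, map_add, aeval_X]
  simp [σ1]

theorem le_ker2 : momentIdeal G6 J6 0 ≤ RingHom.ker (aeval σ2 : MvPolynomial Ix ℂ →ₐ[ℂ] _) := by
  unfold momentIdeal
  rw [Ideal.span_le]
  rintro _ ⟨y, rfl⟩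
  obtain ⟨α, β, γ, rfl⟩ := exists_yy y
  have e1 : (yy α β γ).val = emb α β γ (-α) := rfl
  show aeval σ2 _ = 0
  rw [LinearMap.zero_apply, C_0, sub_zero, e1, momentPoly_eq]
  simp only [Fin.sum_univ_six, map_mul, map_sub, map_add, aeval_X]
  simp [σ2]

/-- Evaluation of the classes at a family of points of the fibre. -/
noncomputable def lf {R : Type} [CommRing R] [Algebra ℂ R] (σ : Ix → R) (I : Ideal (MvPolynomial Ix ℂ))
    (h : I ≤ RingHom.ker (aeval σ : MvPolynomial Ix ℂ →ₐ[ℂ] R)) : invRing G6 I →+* R :=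
  (Ideal.Quotient.lift I (aeval σ : MvPolynomial Ix ℂ →ₐ[ℂ] R).toRingHom (fun P hP => h hP)).comp
    (invRing G6 I).subtype


theorem lf_mk {R : Type} [CommRing R] [Algebra ℂ R] (σ : Ix → R) (I : Ideal (MvPolynomial Ix ℂ))
    (h : I ≤ RingHom.ker (aeval σ : MvPolynomial Ix ℂ →ₐ[ℂ] R)) (P : MvPolynomial Ix ℂ)
    (hP : Ideal.Quotient.mk I P ∈ invRing G6 I) : lf σ I h ⟨Ideal.Quotient.mk I P, hP⟩ = aeval σ P := rfl

/-- The class of a Plücker coordinate. -/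
noncomputable def cl (I : Ideal (MvPolynomial Ix ℂ)) (i j : Fin 6) : invRing G6 I :=
  ⟨Ideal.Quotient.mk I (pl i j), pl i j, pl_inv I i j, rfl⟩

theorem lf_cl {R : Type} [CommRing R] [Algebra ℂ R] (σ : Ix → R) (I : Ideal (MvPolynomial Ix ℂ))
    (h : I ≤ RingHom.ker (aeval σ : MvPolynomial Ix ℂ →ₐ[ℂ] R)) (i j : Fin 6) :
    lf σ I h (cl I i j) = σ (Sum.inl i) * σ (Sum.inr j) - σ (Sum.inl j) * σ (Sum.inr i) := by
  show aeval σ (pl i j) = _
  rw [pl, map_sub, map_mul, map_mul, aeval_X, aeval_X, aeval_X, aeval_X]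

theorem not_qfactorial (I : Ideal (MvPolynomial Ix ℂ)) (h0 : momentIdeal G6 J6 0 ≤ I)
    (h1 : I ≤ RingHom.ker (aeval σ1 : MvPolynomial Ix ℂ →ₐ[ℂ] _))
    (h2 : I ≤ RingHom.ker (aeval σ2 : MvPolynomial Ix ℂ →ₐ[ℂ] _)) : ¬ IsQFactorial (invRing G6 I) := by
  intro hQ
  refine core hQ (cl I 0 1) (cl I 0 2) (cl I 0 5) (cl I 0 4) ?_ (lf σ1 I h1) (lf σ2 I h2) ?_ ?_ ?_ ?_ ?_ ?_
  · apply Subtype.ext
    show Ideal.Quotient.mk I (pl 0 2) * Ideal.Quotient.mk I (pl 0 5) =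
      -(Ideal.Quotient.mk I (pl 0 1) * Ideal.Quotient.mk I (pl 0 4))
    rw [eq_neg_iff_add_eq_zero, ← map_mul, ← map_mul, ← map_add, Ideal.Quotient.eq_zero_iff_mem,
      add_comm]
    exact h0 relation
  · intro c
    refine ⟨algebraMap ℂ (invRing G6 I) c, ?_⟩
    show MvPolynomial.eval 0 (aeval σ1 (C c)) = c
    rw [MvPolynomial.aeval_C]
    show MvPolynomial.eval 0 (C c) = c
    rw [MvPolynomial.eval_C]
  · rw [lf_cl]
    simp [σ1]
  · rw [lf_cl]
    simp [σ1]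
  · rw [lf_cl]
    simp [σ2]
  · rw [lf_cl]
    simp [σ2]
  · rintro ⟨f, P, hP, rfl⟩
    show MvPolynomial.eval 0 (aeval σ1 P) = Polynomial.eval 0 (aeval σ2 P)
    have e : (aeval (0 : Fin 2 → ℂ) : MvPolynomial (Fin 2) ℂ →ₐ[ℂ] ℂ).comp (aeval σ1) =
        (Polynomial.aeval (0 : ℂ)).comp (aeval σ2) := by
      apply MvPolynomial.algHom_ext
      intro i
      rw [AlgHom.comp_apply, AlgHom.comp_apply, aeval_X, aeval_X]
      rcases i with i | i <;> fin_cases i <;> simp [σ1, σ2]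
    have h3 := AlgHom.congr_fun e P
    rw [AlgHom.comp_apply, AlgHom.comp_apply, MvPolynomial.aeval_eq_eval] at h3
    rw [h3, Polynomial.coe_aeval_eq_eval]

/-- The reduction is not ℚ-factorial. -/
theorem not_qfactorial_reduction {χ : Module.Dual ℂ (lieAlg G6)} (hχ : χ ∈ charSpace G6) :
    ¬ QFactorialReduction G6 J6 χ ∧ ¬ QFactorialReductionRed G6 J6 χ := by
  have h := charSpace_eq hχ
  subst h
  have p1 : (RingHom.ker (aeval σ1 : MvPolynomial Ix ℂ →ₐ[ℂ] _)).IsPrime := RingHom.ker_isPrime _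
  have p2 : (RingHom.ker (aeval σ2 : MvPolynomial Ix ℂ →ₐ[ℂ] _)).IsPrime := RingHom.ker_isPrime _
  exact ⟨not_qfactorial _ le_rfl le_ker1 le_ker2,
    not_qfactorial _ Ideal.le_radical (p1.radical_le_iff.2 le_ker1) (p2.radical_le_iff.2 le_ker2)⟩

end HR2
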