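import Pool.Agent.HamRed.B4
import Pool.Agent.HamRed.B8
import Pool.Agent.Hhelper57.HR2Ring

/-!
# MP_3b8a02_ag, Q2: `ℂ² ⊗ ℂ⁶` is a 4-large representation of `SL₂(ℂ)`
-/

set_option linter.all false

open MvPolynomial

namespace HR2

open HamRed

/-! ### Heights -/

/-- The matrix with rows `M j = a_k e_j - a_j e_k`, `j ≠ k`, written with `succAbove`. -/
theorem height_five_aux (Q : Ideal (MvPolynomial (Fin 6) (MvPolynomial (Fin 6) ℂ))) [Q.IsPrime] (k : Fin 6)
    (hk : (C (X k) : MvPolynomial (Fin 6) (MvPolynomial (Fin 6) ℂ)) ∉ Q)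
    (hQ : ∀ i j : Fin 6, (C (X i) * X j - C (X j) * X i : MvPolynomial (Fin 6) (MvPolynomial (Fin 6) ℂ)) ∈ Q) :
    (5 : ℕ∞) ≤ Q.height := by
  set M : Matrix (Fin 5) (Fin 6) (MvPolynomial (Fin 6) ℂ) := fun l j =>
    if j = k.succAbove l then X k else if j = k then -X (k.succAbove l) else 0 with hM
  have h := B1_height_add_le M (fun _ => 0) Q (r := 5) id (fun l => k.succAbove l) ?_ ?_
  · refine le_trans ?_ h
    exact_mod_cast le_add_self
  · have hdet : (M.submatrix id (fun l => k.succAbove l)).det = (X k) ^ 5 := by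
      have e : M.submatrix id (fun l => k.succAbove l) = Matrix.diagonal (fun _ => X k) := by
        ext l l'
        simp only [Matrix.submatrix_apply, id, hM]
        by_cases hll : l = l'
        · subst hll
          rw [if_pos rfl, Matrix.diagonal_apply_eq]
        · rw [Matrix.diagonal_apply_ne _ hll, if_neg, if_neg]
          · exact Fin.succAbove_ne k l'
          · intro he
            exact hll (Fin.succAbove_right_injective he).symm
      rw [e, Matrix.det_diagonal, Finset.prod_const, Finset.card_univ, Fintype.card_fin]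
    rw [hdet]
    intro hmem
    rw [Ideal.mem_comap, map_pow] at hmem
    exact hk (Ideal.IsPrime.mem_of_pow_mem inferInstance _ hmem)
  · intro l
    have e : lin M (fun _ => 0) (id l) = C (X k) * X (k.succAbove l) - C (X (k.succAbove l)) * X k := by
      unfold lin
      rw [C_0, sub_zero]
      rw [Finset.sum_eq_add (k.succAbove l) k (Fin.succAbove_ne k l)]
      · simp [hM, (Fin.succAbove_ne k l).symm]
        ring
      · rintro c - ⟨hc1, hc2⟩
        simp [hM, hc1, hc2]
      · intro hc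
        exact absurd (Finset.mem_univ _) hc
      · intro hc
        exact absurd (Finset.mem_univ _) hc
    rw [e]
    exact hQ k (k.succAbove l)

/-- All variables. -/
theorem height_six_aux (Q : Ideal (MvPolynomial (Fin 6) (MvPolynomial (Fin 6) ℂ))) [Q.IsPrime]
    (hQ : ∀ j : Fin 6, (X j : MvPolynomial (Fin 6) (MvPolynomial (Fin 6) ℂ)) ∈ Q) :
    (Q.comap (C : MvPolynomial (Fin 6) ℂ →+* _)).height + 6 ≤ Q.height := by
  have h := B1_height_add_le (1 : Matrix (Fin 6) (Fin 6) (MvPolynomial (Fin 6) ℂ)) (fun _ => 0) Q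
    (r := 6) id id ?_ ?_
  · exact_mod_cast h
  · rw [Matrix.submatrix_id_id, Matrix.det_one]
    intro h1
    rw [Ideal.mem_comap, map_one] at h1
    exact Ideal.IsPrime.ne_top (I := Q) inferInstance ((Ideal.eq_top_iff_one _).2 h1)
  · intro i
    have e : lin (1 : Matrix (Fin 6) (Fin 6) (MvPolynomial (Fin 6) ℂ)) (fun _ => 0) i = X i := by
      unfold lin
      rw [C_0, sub_zero, Finset.sum_eq_single i]
      · simp
      · intro b _ hb
        simp [Matrix.one_apply_ne (Ne.symm hb)]
      · intro hc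
        exact absurd (Finset.mem_univ _) hc
    show lin (1 : Matrix (Fin 6) (Fin 6) (MvPolynomial (Fin 6) ℂ)) (fun _ => 0) i ∈ Q
    rw [e]
    exact hQ i

/-! ### Transport to `ℂ[U]` -/

/-- `ℂ[a, b] ≅ ℂ[a][b]`. -/
noncomputable def eR : MvPolynomial Ix ℂ ≃+* MvPolynomial (Fin 6) (MvPolynomial (Fin 6) ℂ) :=
  (B8_e 6).toRingEquiv

theorem eR_va (i : Fin 6) : eR (va i) = C (X i) := B8_e_inl i

theorem eR_vb (i : Fin 6) : eR (vb i) = X i := B8_e_inr i

/-- `ℂ[a, b] ≅ ℂ[b][a]`. -/
noncomputable def eL : MvPolynomial Ix ℂ ≃+* MvPolynomial (Fin 6) (MvPolynomial (Fin 6) ℂ) :=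
  (renameEquiv ℂ (Equiv.sumComm (Fin 6) (Fin 6))).toRingEquiv.trans eR

theorem eL_va (i : Fin 6) : eL (va i) = X i := by
  have h : (renameEquiv ℂ (Equiv.sumComm (Fin 6) (Fin 6))).toRingEquiv (va i) = vb i := by
    simp [va, vb]
  show eR ((renameEquiv ℂ (Equiv.sumComm (Fin 6) (Fin 6))).toRingEquiv (va i)) = X i
  rw [h, eR_vb]

theorem height_five (J : Ideal (MvPolynomial Ix ℂ)) (hJ : ∀ i j, pl i j ∈ J) : (5 : ℕ∞) ≤ J.height := by
  apply B4_le_height
  intro Q hQ hJQ
  by_cases hall : ∀ k, va k ∈ Q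
  · -- all `a_k` in `Q`
    have hp : (Q.comap eL.symm).IsPrime := Ideal.comap_isPrime _ _
    have h := height_six_aux (Q.comap eL.symm) (fun j => by
      rw [Ideal.mem_comap]
      have e : eL.symm (X j) = va j := by rw [← eL_va, RingEquiv.symm_apply_apply]
      show eL.symm (X j) ∈ Q
      rw [e]
      exact hall j)
    have e2 : (Q.comap eL.symm).height = Q.height :=
      RingEquiv.height_comap eL.symm Q
    rw [e2] at h
    refine le_trans ?_ h
    refine le_trans ?_ le_add_self
    exact_mod_cast (by norm_num : (5 : ℕ) ≤ 6)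
  · push Not at hall
    obtain ⟨k, hk⟩ := hall
    have hp : (Q.comap eR.symm).IsPrime := Ideal.comap_isPrime _ _
    have h := height_five_aux (Q.comap eR.symm) k (fun hmem => by
      rw [Ideal.mem_comap] at hmem
      have e : eR.symm (C (X k)) = va k := by rw [← eR_va, RingEquiv.symm_apply_apply]
      have hmem' : eR.symm (C (X k)) ∈ Q := hmem
      rw [e] at hmem'
      exact hk hmem') (fun i j => by
      rw [Ideal.mem_comap]
      have e : eR.symm (C (X i) * X j - C (X j) * X i) = pl i j := by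
        rw [RingEquiv.symm_apply_eq, pl, map_sub, map_mul, map_mul, eR_va, eR_va, eR_vb, eR_vb]
      show eR.symm _ ∈ Q
      rw [e]
      exact hJQ (hJ i j))
    have e2 : (Q.comap eR.symm).height = Q.height :=
      RingEquiv.height_comap eR.symm Q
    rw [e2] at h
    exact h

theorem height_seven (J : Ideal (MvPolynomial Ix ℂ)) (hJ : ∀ i, X i ∈ J) : (7 : ℕ∞) ≤ J.height := by
  apply B4_le_height
  intro Q hQ hJQ
  have hp : (Q.comap eR.symm).IsPrime := Ideal.comap_isPrime _ _
  have h := height_six_aux (Q.comap eR.symm) (fun j => by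
    rw [Ideal.mem_comap]
    have e : eR.symm (X j) = vb j := by rw [← eR_vb, RingEquiv.symm_apply_apply]
    show eR.symm (X j) ∈ Q
    rw [e]
    exact hJQ (hJ _))
  have e2 : (Q.comap eR.symm).height = Q.height :=
    RingEquiv.height_comap eR.symm Q
  rw [e2] at h
  refine le_trans ?_ h
  have h1 : (1 : ℕ∞) ≤ ((Q.comap eR.symm).comap
      (C : MvPolynomial (Fin 6) ℂ →+* _)).height := by
    rw [ENat.one_le_iff_ne_zero, Ne, Ideal.height_eq_zero_iff_eq_bot]
    intro hbot
    have h2 : (X 0 : MvPolynomial (Fin 6) ℂ) ∈ (Q.comap eR.symm).comap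
        (C : MvPolynomial (Fin 6) ℂ →+* _) := by
      rw [Ideal.mem_comap, Ideal.mem_comap]
      have e : eR.symm (C (X 0)) = va 0 := by rw [← eR_va, RingEquiv.symm_apply_apply]
      show eR.symm (C (X 0)) ∈ Q
      rw [e]
      exact hJQ (hJ _)
    rw [hbot] at h2
    exact X_ne_zero _ h2
  calc (7 : ℕ∞) = 1 + 6 := by norm_num
    _ ≤ _ := by gcongr

/-! ### Points -/

/-- The Plücker coordinates of a point. -/
noncomputable def pv (v : Ix → ℂ) (i j : Fin 6) : ℂ :=
  v (Sum.inl i) * v (Sum.inr j) - v (Sum.inl j) * v (Sum.inr i)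

theorem eval_pl (v : Ix → ℂ) (i j : Fin 6) : MvPolynomial.eval v (pl i j) = pv v i j := by
  simp [pl, pv]

theorem mem_lieStab {v : Ix → ℂ} {α β γ : ℂ} :
    yy α β γ ∈ lieStab G6 v ↔ (∀ i, α * v (Sum.inl i) + β * v (Sum.inr i) = 0) ∧
      ∀ i, γ * v (Sum.inl i) - α * v (Sum.inr i) = 0 := by
  have e : (yy α β γ).val.mulVec v = Sum.elim (fun i => α * v (Sum.inl i) + β * v (Sum.inr i))
      (fun i => γ * v (Sum.inl i) + -α * v (Sum.inr i)) := emb_mulVec _ _ _ _ v
  have h : yy α β γ ∈ lieStab G6 v ↔ (yy α β γ).val.mulVec v = 0 := Iff.rfl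
  rw [h, e]
  constructor
  · intro h1
    refine ⟨fun i => congrFun h1 (Sum.inl i), fun i => ?_⟩
    have h2 := congrFun h1 (Sum.inr i)
    simp only [Sum.elim_inr, Pi.zero_apply] at h2
    linear_combination h2
  · rintro ⟨h1, h2⟩
    funext i
    rcases i with i | i
    · exact h1 i
    · simp only [Sum.elim_inr, Pi.zero_apply]
      linear_combination h2 i

theorem stabDim_zero {v : Ix → ℂ} {i j : Fin 6} (h : pv v i j ≠ 0) : stabDim G6 v = 0 := by
  have hbot : lieStab G6 v = ⊥ := by
    rw [eq_bot_iff]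
    intro y hy
    obtain ⟨α, β, γ, rfl⟩ := exists_yy y
    obtain ⟨h1, h2⟩ := mem_lieStab.1 hy
    have hα : α * pv v i j = 0 := by
      unfold pv
      linear_combination v (Sum.inr j) * h1 i - v (Sum.inr i) * h1 j
    have hβ : β * pv v i j = 0 := by
      unfold pv
      linear_combination v (Sum.inl i) * h1 j - v (Sum.inl j) * h1 i
    have hγ : γ * pv v i j = 0 := by
      unfold pv
      linear_combination v (Sum.inr j) * h2 i - v (Sum.inr i) * h2 j
    have hα' := (mul_eq_zero.1 hα).resolve_right h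
    have hβ' := (mul_eq_zero.1 hβ).resolve_right h
    have hγ' := (mul_eq_zero.1 hγ).resolve_right h
    subst hα' hβ' hγ'
    rw [Submodule.mem_bot]
    apply Subtype.ext
    show emb 0 0 0 (-0) = 0
    unfold emb
    simp
  unfold stabDim
  rw [hbot, finrank_bot]

/-- The coordinates `(α, β, γ)` of an element of the Lie algebra. -/
noncomputable def coord : lieAlg G6 →ₗ[ℂ] (Fin 3 → ℂ) where
  toFun y := ![y.val (Sum.inl 0) (Sum.inl 0), y.val (Sum.inl 0) (Sum.inr 0), y.val (Sum.inr 0) (Sum.inl 0)]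
  map_add' y z := by
    ext i
    fin_cases i <;> rfl
  map_smul' c y := by
    ext i
    fin_cases i <;> rfl

theorem coord_yy (α β γ : ℂ) : coord (yy α β γ) = ![α, β, γ] := by
  show ![emb α β γ (-α) (Sum.inl 0) (Sum.inl 0), emb α β γ (-α) (Sum.inl 0) (Sum.inr 0),
    emb α β γ (-α) (Sum.inr 0) (Sum.inl 0)] = _
  simp [emb]

theorem coord_inj : Function.Injective coord := by
  intro y z h
  obtain ⟨α, β, γ, rfl⟩ := exists_yy y
  obtain ⟨α', β', γ', rfl⟩ := exists_yy z
  rw [coord_yy, coord_yy] at h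
  have h0 : α = α' := congrFun h 0
  have h1 : β = β' := congrFun h 1
  have h2 : γ = γ' := congrFun h 2
  rw [h0, h1, h2]

theorem finrank_lieAlg_le : Module.finrank ℂ (lieAlg G6) ≤ 3 := by
  have h := LinearMap.finrank_le_finrank_of_injective coord_inj
  rwa [Module.finrank_fin_fun] at h

theorem stabDim_le_one {v : Ix → ℂ} (hv : v ≠ 0) : stabDim G6 v ≤ 1 := by
  have hex : ∃ i, v (Sum.inl i) ≠ 0 ∨ v (Sum.inr i) ≠ 0 := by
    by_contra hcon
    push Not at hcon
    apply hv
    funext i
    rcases i with i | i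
    · exact (hcon i).1
    · exact (hcon i).2
  obtain ⟨i, hi⟩ := hex
  rcases hi with hi | hi
  · -- `β` determines
    let L : lieStab G6 v →ₗ[ℂ] ℂ :=
      (LinearMap.proj 1).comp (coord.comp (lieStab G6 v).subtype)
    have hinj : Function.Injective L := by
      rintro ⟨y, hy⟩ ⟨z, hz⟩ hL
      obtain ⟨α, β, γ, rfl⟩ := exists_yy y
      obtain ⟨α', β', γ', rfl⟩ := exists_yy z
      obtain ⟨h1, h2⟩ := mem_lieStab.1 hy
      obtain ⟨h1', h2'⟩ := mem_lieStab.1 hz
      have hβ : β = β' := by
        have h3 : coord (yy α β γ) 1 = coord (yy α' β' γ') 1 := hL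
        rw [coord_yy, coord_yy] at h3
        exact h3
      subst hβ
      have hα : α = α' := by
        have h3 : (α - α') * v (Sum.inl i) = 0 := by linear_combination h1 i - h1' i
        exact sub_eq_zero.1 ((mul_eq_zero.1 h3).resolve_right hi)
      subst hα
      have hγ : γ = γ' := by
        have h3 : (γ - γ') * v (Sum.inl i) = 0 := by linear_combination h2 i - h2' i
        exact sub_eq_zero.1 ((mul_eq_zero.1 h3).resolve_right hi)
      subst hγ
      rfl
    have h := LinearMap.finrank_le_finrank_of_injective hinj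
    rwa [Module.finrank_self] at h
  · let L : lieStab G6 v →ₗ[ℂ] ℂ :=
      (LinearMap.proj 2).comp (coord.comp (lieStab G6 v).subtype)
    have hinj : Function.Injective L := by
      rintro ⟨y, hy⟩ ⟨z, hz⟩ hL
      obtain ⟨α, β, γ, rfl⟩ := exists_yy y
      obtain ⟨α', β', γ', rfl⟩ := exists_yy z
      obtain ⟨h1, h2⟩ := mem_lieStab.1 hy
      obtain ⟨h1', h2'⟩ := mem_lieStab.1 hz
      have hγ : γ = γ' := by
        have h3 : coord (yy α β γ) 2 = coord (yy α' β' γ') 2 := hL
        rw [coord_yy, coord_yy] at h3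
        exact h3
      subst hγ
      have hα : α = α' := by
        have h3 : (α - α') * v (Sum.inr i) = 0 := by linear_combination h2' i - h2 i
        exact sub_eq_zero.1 ((mul_eq_zero.1 h3).resolve_right hi)
      subst hα
      have hβ : β = β' := by
        have h3 : (β - β') * v (Sum.inr i) = 0 := by linear_combination h1 i - h1' i
        exact sub_eq_zero.1 ((mul_eq_zero.1 h3).resolve_right hi)
      subst hβ
      rfl
    have h := LinearMap.finrank_le_finrank_of_injective hinj
    rwa [Module.finrank_self] at h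

/-! ### Closed orbits -/

theorem act_eq {M : GL Ix ℂ} {p q r s : ℂ} (e : M.val = emb p q r s) (v : Ix → ℂ) :
    M.val.mulVec v = Sum.elim (fun i => p * v (Sum.inl i) + q * v (Sum.inr i))
      (fun i => r * v (Sum.inl i) + s * v (Sum.inr i)) := by
  rw [e, emb_mulVec]

theorem closed_orbit {v : Ix → ℂ} {i j : Fin 6} (h : pv v i j ≠ 0) : IsClosedOrbit G6 v := by
  refine ⟨{P | ∃ k l, P = pl k l - C (pv v k l)}, fun w => ⟨?_, ?_⟩⟩
  · rintro ⟨g, ⟨p, q, r, s, hd, e⟩, rfl⟩
    rintro P ⟨k, l, rfl⟩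
    rw [map_sub, eval_pl, eval_C, act_eq e v]
    simp only [pv, Sum.elim_inl, Sum.elim_inr]
    linear_combination (v (Sum.inl k) * v (Sum.inr l) - v (Sum.inl l) * v (Sum.inr k)) * hd
  · intro hw
    have hpl : ∀ k l, pv w k l = pv v k l := by
      intro k l
      have h1 := hw (pl k l - C (pv v k l)) ⟨k, l, rfl⟩
      rw [map_sub, eval_pl, eval_C] at h1
      exact sub_eq_zero.1 h1
    obtain ⟨c, hc⟩ : ∃ c, c = pv v i j := ⟨_, rfl⟩
    have hc0 : c ≠ 0 := by rw [hc]; exact h
    have hcw : pv w i j = c := by rw [hpl, hc]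
    have hcv : pv v i j = c := hc.symm
    obtain ⟨p, hp⟩ : ∃ p, p = (w (Sum.inl i) * v (Sum.inr j) - w (Sum.inl j) * v (Sum.inr i)) / c := ⟨_, rfl⟩
    obtain ⟨q, hq⟩ : ∃ q, q = (v (Sum.inl i) * w (Sum.inl j) - v (Sum.inl j) * w (Sum.inl i)) / c := ⟨_, rfl⟩
    obtain ⟨r, hr⟩ : ∃ r, r = (w (Sum.inr i) * v (Sum.inr j) - w (Sum.inr j) * v (Sum.inr i)) / c := ⟨_, rfl⟩
    obtain ⟨s, hs⟩ : ∃ s, s = (v (Sum.inl i) * w (Sum.inr j) - v (Sum.inl j) * w (Sum.inr i)) / c := ⟨_, rfl⟩
    have hp' : p * c = w (Sum.inl i) * v (Sum.inr j) - w (Sum.inl j) * v (Sum.inr i) := by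
      rw [hp]; field_simp
    have hq' : q * c = v (Sum.inl i) * w (Sum.inl j) - v (Sum.inl j) * w (Sum.inl i) := by
      rw [hq]; field_simp
    have hr' : r * c = w (Sum.inr i) * v (Sum.inr j) - w (Sum.inr j) * v (Sum.inr i) := by
      rw [hr]; field_simp
    have hs' : s * c = v (Sum.inl i) * w (Sum.inr j) - v (Sum.inl j) * w (Sum.inr i) := by
      rw [hs]; field_simp
    unfold pv at hcw hcv
    have hdet : p * s - q * r = 1 := by
      have h1 : (p * s - q * r) * (c * c) = c * c := by
        calc (p * s - q * r) * (c * c) = (p * c) * (s * c) - (q * c) * (r * c) := by ring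
          _ = (w (Sum.inl i) * w (Sum.inr j) - w (Sum.inl j) * w (Sum.inr i)) *
              (v (Sum.inl i) * v (Sum.inr j) - v (Sum.inl j) * v (Sum.inr i)) := by
            rw [hp', hq', hr', hs']; ring
          _ = c * c := by rw [hcw, hcv]
      exact mul_right_cancel₀ (mul_ne_zero hc0 hc0) (by rw [h1, one_mul])
    refine ⟨embGL p q r s hdet, embGL_mem p q r s hdet, ?_⟩
    have e1 : (embGL p q r s hdet).val = emb p q r s := rfl
    rw [act_eq e1 v]
    have hkj : ∀ k, w (Sum.inl k) * w (Sum.inr j) - w (Sum.inl j) * w (Sum.inr k) =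
        v (Sum.inl k) * v (Sum.inr j) - v (Sum.inl j) * v (Sum.inr k) := fun k => hpl k j
    have hik : ∀ k, w (Sum.inl i) * w (Sum.inr k) - w (Sum.inl k) * w (Sum.inr i) =
        v (Sum.inl i) * v (Sum.inr k) - v (Sum.inl k) * v (Sum.inr i) := fun k => hpl i k
    funext x
    rcases x with k | k
    · simp only [Sum.elim_inl]
      apply mul_left_cancel₀ hc0
      have h3 : c * w (Sum.inl k) = (v (Sum.inl k) * v (Sum.inr j) - v (Sum.inl j) * v (Sum.inr k)) * w (Sum.inl i)
          + (v (Sum.inl i) * v (Sum.inr k) - v (Sum.inl k) * v (Sum.inr i)) * w (Sum.inl j) := by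
        rw [← hkj, ← hik, ← hcw]
        ring
      rw [h3]
      linear_combination (-v (Sum.inl k)) * hp' - v (Sum.inr k) * hq'
    · simp only [Sum.elim_inr]
      apply mul_left_cancel₀ hc0
      have h3 : c * w (Sum.inr k) = (v (Sum.inl k) * v (Sum.inr j) - v (Sum.inl j) * v (Sum.inr k)) * w (Sum.inr i)
          + (v (Sum.inl i) * v (Sum.inr k) - v (Sum.inl k) * v (Sum.inr i)) * w (Sum.inr j) := by
        rw [← hkj, ← hik, ← hcw]
        ring
      rw [h3]
      linear_combination (-v (Sum.inl k)) * hr' - v (Sum.inr k) * hs'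

/-! ### The principal set -/

theorem stab_trivial {v : Ix → ℂ} {i j : Fin 6} (h : pv v i j ≠ 0) : stab G6 v = {1} := by
  ext M
  rw [Set.mem_singleton_iff]
  constructor
  · rintro ⟨⟨p, q, r, s, hd, e⟩, hM⟩
    rw [act_eq e v] at hM
    have h1 : ∀ k, p * v (Sum.inl k) + q * v (Sum.inr k) = v (Sum.inl k) := fun k => congrFun hM (Sum.inl k)
    have h2 : ∀ k, r * v (Sum.inl k) + s * v (Sum.inr k) = v (Sum.inr k) := fun k => congrFun hM (Sum.inr k)
    have hp : (p - 1) * pv v i j = 0 := by
      unfold pv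
      linear_combination v (Sum.inr j) * h1 i - v (Sum.inr i) * h1 j
    have hq : q * pv v i j = 0 := by
      unfold pv
      linear_combination v (Sum.inl i) * h1 j - v (Sum.inl j) * h1 i
    have hr : r * pv v i j = 0 := by
      unfold pv
      linear_combination v (Sum.inr j) * h2 i - v (Sum.inr i) * h2 j
    have hs : (s - 1) * pv v i j = 0 := by
      unfold pv
      linear_combination v (Sum.inl i) * h2 j - v (Sum.inl j) * h2 i
    apply Units.ext
    rw [e, Units.val_one]
    exact emb_eq_one (sub_eq_zero.1 ((mul_eq_zero.1 hp).resolve_right h))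
      ((mul_eq_zero.1 hq).resolve_right h) ((mul_eq_zero.1 hr).resolve_right h)
      (sub_eq_zero.1 ((mul_eq_zero.1 hs).resolve_right h))
  · rintro rfl
    refine ⟨G6.one_mem, ?_⟩
    rw [Units.val_one, Matrix.one_mulVec]

theorem stabComp_one {v : Ix → ℂ} {i j : Fin 6} (h : pv v i j ≠ 0) : stabComp G6 v ≤ 1 := by
  unfold stabComp
  rw [stab_trivial h, Set.image_singleton, Cardinal.le_one_iff_subsingleton]
  constructor
  intro x y
  obtain ⟨x, rfl⟩ := ConnectedComponents.surjective_coe x
  obtain ⟨y, rfl⟩ := ConnectedComponents.surjective_coe y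
  congr 1
  exact Subsingleton.elim x y

theorem one_le_stabComp (w : Ix → ℂ) : 1 ≤ stabComp G6 w := by
  unfold stabComp
  rw [Cardinal.one_le_iff_ne_zero, Ne, Cardinal.mk_eq_zero_iff, not_isEmpty_iff]
  refine ⟨ConnectedComponents.mk ⟨(1 : GL Ix ℂ).val, 1, ⟨G6.one_mem, ?_⟩, rfl⟩⟩
  rw [Units.val_one, Matrix.one_mulVec]

theorem minDim_zero : minDim G6 = 0 := by
  have hv : pv (Sum.elim ![1, 0, 0, 0, 0, 0] ![0, 1, 0, 0, 0, 0]) 0 1 ≠ 0 := by
    simp [pv]
  unfold minDim
  rw [Nat.sInf_eq_zero]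
  exact Or.inl ⟨_, closed_orbit hv, stabDim_zero hv⟩

theorem principal_of {v : Ix → ℂ} {i j : Fin 6} (h : pv v i j ≠ 0) : v ∈ principalSet G6 := by
  refine ⟨⟨closed_orbit h, ?_⟩, fun w _ => (stabComp_one h).trans (one_le_stabComp w)⟩
  rw [minDim_zero, stabDim_zero h]

theorem mem_vanishing {S : Set (Ix → ℂ)} {P : MvPolynomial Ix ℂ} (h : ∀ v ∈ S, MvPolynomial.eval v P = 0) :
    P ∈ MvPolynomial.vanishingIdeal ℂ S := by
  rw [MvPolynomial.mem_vanishingIdeal_iff]
  intro v hv
  rw [MvPolynomial.aeval_eq_eval]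
  exact h v hv

/-- `ℂ² ⊗ ℂ⁶` is 4-large. -/
theorem G6_large : IsLarge 4 G6 := by
  refine ⟨minDim_zero, ?_, ?_⟩
  · have h : (5 : ℕ∞) ≤ codim (principalSet G6)ᶜ := by
      apply height_five
      intro i j
      apply mem_vanishing
      intro v hv
      rw [eval_pl]
      by_contra hne
      exact hv (principal_of hne)
    refine le_trans ?_ h
    exact_mod_cast (by norm_num : (4 : ℕ) ≤ 5)
  · intro r hr1 hr2
    have hr3 : r ≤ 3 := hr2.trans finrank_lieAlg_le
    rcases Nat.lt_or_ge r 2 with hr | hr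
    · have hr' : r = 1 := by omega
      subst hr'
      have h : (5 : ℕ∞) ≤ codim {v | stabDim G6 v = 1} := by
        apply height_five
        intro i j
        apply mem_vanishing
        intro v hv
        rw [eval_pl]
        by_contra hne
        have h1 : stabDim G6 v = 1 := hv
        rw [stabDim_zero hne] at h1
        exact absurd h1 (by norm_num)
      exact_mod_cast h
    · have h : (7 : ℕ∞) ≤ codim {v | stabDim G6 v = r} := by
        apply height_seven
        intro i
        apply mem_vanishing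
        intro v hv
        have h1 : stabDim G6 v = r := hv
        have h2 : v = 0 := by
          by_contra hne
          have := stabDim_le_one hne
          omega
        rw [h2, eval_X]
        rfl
      refine le_trans ?_ h
      exact_mod_cast (by omega : r + 4 ≤ 7)

end HR2
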