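import Pool.Agent.Hhelper57.UDCore

set_option autoImplicit false

namespace Pool.Agent.Hhelper57.UD

open Module

variable {V : Type*} [NormedAddCommGroup V] [InnerProductSpace ℝ V]

/-- adjacency of two vertices of the halved 5-cube, coded on four bits -/
def adjB (s t : Fin 16) : Bool :=
  decide ((s ^^^ t) ∈ ([3, 5, 6, 7, 9, 10, 11, 12, 13, 14] : List (Fin 16)))

/-- the five directions of non-adjacency -/
def g : Fin 5 → Fin 16 := ![1, 2, 4, 8, 15]

/-- the five coordinates of a vertex (even weight words of length five) -/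
def side (i : Fin 5) (s : Fin 16) : Bool :=
  ((s &&& ((![14, 13, 11, 7, 15] : Fin 5 → Fin 16) i)) ∈
    ([1, 2, 4, 7, 8, 11, 13, 14] : List (Fin 16)))

/-- all 24 adjacencies of a cell -/
def cellB (a a' b b' c c' d d' : Fin 16) : Bool :=
  adjB a b && adjB a b' && adjB a' b && adjB a' b' &&
  (adjB a c && adjB a c' && adjB a' c && adjB a' c') &&
  (adjB a d && adjB a d' && adjB a' d && adjB a' d') &&
  (adjB b c && adjB b c' && adjB b' c && adjB b' c') &&
  (adjB b d && adjB b d' && adjB b' d && adjB b' d') &&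
  (adjB c d && adjB c d' && adjB c' d && adjB c' d')

/-- the images of the sixteen points, seen from the centre of the four apexes -/
structure Config (v : Fin 16 → V) : Prop where
  nrm : ∀ s, inner ℝ (v s) (v s) = (5 / 4 : ℝ)
  adj : ∀ s t, adjB s t = true → inner ℝ (v s) (v t) = (1 / 4 : ℝ)

namespace Config

variable {v : Fin 16 → V}

lemma cell (h : Config v) (a a' b b' c c' d d' : Fin 16)
    (hc : cellB a a' b b' c c' d d' = true) :
    Cell (v a) (v a') (v b) (v b') (v c) (v c') (v d) (v d') := by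
  simp only [cellB, Bool.and_eq_true] at hc
  obtain ⟨⟨⟨⟨⟨⟨⟨⟨h1, h2⟩, h3⟩, h4⟩, ⟨⟨⟨h5, h6⟩, h7⟩, h8⟩⟩, ⟨⟨⟨h9, h10⟩, h11⟩, h12⟩⟩,
    ⟨⟨⟨h13, h14⟩, h15⟩, h16⟩⟩, ⟨⟨⟨h17, h18⟩, h19⟩, h20⟩⟩, ⟨⟨⟨h21, h22⟩, h23⟩, h24⟩⟩ := hc
  exact ⟨h.nrm _, h.nrm _, h.nrm _, h.nrm _, h.nrm _, h.nrm _, h.nrm _, h.nrm _,
    h.adj _ _ h1, h.adj _ _ h2, h.adj _ _ h3, h.adj _ _ h4, h.adj _ _ h5, h.adj _ _ h6,
    h.adj _ _ h7, h.adj _ _ h8, h.adj _ _ h9, h.adj _ _ h10, h.adj _ _ h11, h.adj _ _ h12,
    h.adj _ _ h13, h.adj _ _ h14, h.adj _ _ h15, h.adj _ _ h16, h.adj _ _ h17, h.adj _ _ h18,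
    h.adj _ _ h19, h.adj _ _ h20, h.adj _ _ h21, h.adj _ _ h22, h.adj _ _ h23, h.adj _ _ h24⟩

lemma ne_of (h : Config v) {s t : Fin 16} (hne : v s ≠ v t) :
    inner ℝ (v s) (v t) ≠ (5 / 4 : ℝ) := by
  intro hi
  apply hne
  have : inner ℝ (v s - v t) (v s - v t) = (0 : ℝ) := by
    rw [inner_sub_left, inner_sub_right, inner_sub_right, real_inner_comm (v s) (v t),
      h.nrm, h.nrm, hi]
    ring
  exact sub_eq_zero.1 (inner_self_eq_zero.1 this)

/-- two collapses in general position give seven mutually adjacent vectors -/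
lemma no_col [FiniteDimensional ℝ V] (hV : finrank ℝ V = 6) (h : Config v) (h01 : v 0 = v 1)
    (a b : Fin 16) (q : Fin 5 → Fin 16)
    (h1 : ∀ i j, i ≠ j → adjB (q i) (q j) = true)
    (h2 : ∀ i, (adjB 0 (q i) || adjB 1 (q i)) = true)
    (h3 : ∀ i, (adjB a (q i) || adjB b (q i)) = true)
    (h4 : (adjB 0 a || adjB 1 a) = true) : v a ≠ v b := by
  intro hab
  have k2 : ∀ i, inner ℝ (v 0) (v (q i)) = (1 / 4 : ℝ) := by
    intro i
    rcases (Bool.or_eq_true _ _).mp (h2 i) with h' | h'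
    · exact h.adj _ _ h'
    · rw [h01]; exact h.adj _ _ h'
  have k3 : ∀ i, inner ℝ (v a) (v (q i)) = (1 / 4 : ℝ) := by
    intro i
    rcases (Bool.or_eq_true _ _).mp (h3 i) with h' | h'
    · exact h.adj _ _ h'
    · rw [hab]; exact h.adj _ _ h'
  have k4 : inner ℝ (v 0) (v a) = (1 / 4 : ℝ) := by
    rcases (Bool.or_eq_true _ _).mp h4 with h' | h'
    · exact h.adj _ _ h'
    · rw [h01]; exact h.adj _ _ h'
  refine no_clique7 hV (Fin.cons (v 0) (Fin.cons (v a) (fun i => v (q i)))) ?_ ?_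
  · intro i
    refine Fin.cases ?_ (fun i => ?_) i
    · exact h.nrm _
    · refine Fin.cases ?_ (fun i => ?_) i
      · exact h.nrm _
      · exact h.nrm _
  · intro i j
    refine Fin.cases ?_ (fun i => ?_) i
    · refine Fin.cases ?_ (fun j => ?_) j
      · intro hh; exact absurd rfl hh
      · refine Fin.cases ?_ (fun j => ?_) j
        · intro _; exact k4
        · intro _; exact k2 j
    · refine Fin.cases ?_ (fun i => ?_) i
      · refine Fin.cases ?_ (fun j => ?_) j
        · intro _; simp only [Fin.cons_succ, Fin.cons_zero]; rw [real_inner_comm]; exact k4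
        · refine Fin.cases ?_ (fun j => ?_) j
          · intro hh; exact absurd rfl hh
          · intro _; exact k3 j
      · refine Fin.cases ?_ (fun j => ?_) j
        · intro _; simp only [Fin.cons_succ, Fin.cons_zero]; rw [real_inner_comm]; exact k2 i
        · refine Fin.cases ?_ (fun j => ?_) j
          · intro _; simp only [Fin.cons_succ, Fin.cons_zero]; rw [real_inner_comm]; exact k3 i
          · intro hh
            simp only [Fin.cons_succ]
            exact h.adj _ _ (h1 i j (fun e => hh (by rw [e])))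

/-- no collapse -/
theorem no_collapse [FiniteDimensional ℝ V] (hV : finrank ℝ V = 6) (h : Config v) :
    v 0 ≠ v 1 := by
  intro h01
  have nc : ∀ (a b : Fin 16) (q : Fin 5 → Fin 16),
      ((∀ i j, i ≠ j → adjB (q i) (q j) = true) ∧
      (∀ i, (adjB 0 (q i) || adjB 1 (q i)) = true) ∧
      (∀ i, (adjB a (q i) || adjB b (q i)) = true) ∧
      (adjB 0 a || adjB 1 a) = true) → inner ℝ (v a) (v b) ≠ (5 / 4 : ℝ) := by
    intro a b q hq
    exact h.ne_of (h.no_col hV h01 a b q hq.1 hq.2.1 hq.2.2.1 hq.2.2.2)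
  have q57 := nc 5 7 ![10, 9, 15, 3, 4] (by decide)
  have q911 := nc 9 11 ![6, 5, 3, 15, 8] (by decide)
  have q1214 := nc 12 14 ![6, 5, 3, 15, 8] (by decide)
  have q46 := nc 4 6 ![11, 8, 14, 2, 5] (by decide)
  have q810 := nc 8 10 ![7, 4, 2, 14, 9] (by decide)
  have q1315 := nc 13 15 ![7, 4, 2, 14, 9] (by decide)
  have q312 := nc 3 12 ![7, 4, 2, 14, 9] (by decide)
  have q510 := nc 5 10 ![7, 4, 2, 14, 9] (by decide)
  have q69 := nc 6 9 ![11, 8, 14, 2, 5] (by decide)
  have q213 := nc 2 13 ![6, 5, 3, 15, 8] (by decide)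
  have q411 := nc 4 11 ![6, 5, 3, 15, 8] (by decide)
  have q78 := nc 7 8 ![10, 9, 15, 3, 4] (by decide)
  have e02 : inner ℝ (v 0) (v 2) = (1 / 4 : ℝ) := by rw [h01]; exact h.adj _ _ (by decide)
  have e13 : inner ℝ (v 1) (v 3) = (1 / 4 : ℝ) := by rw [← h01]; exact h.adj _ _ (by decide)
  have e015 : inner ℝ (v 0) (v 15) = (1 / 4 : ℝ) := by rw [h01]; exact h.adj _ _ (by decide)
  have e114 : inner ℝ (v 1) (v 14) = (1 / 4 : ℝ) := by rw [← h01]; exact h.adj _ _ (by decide)
  have n57 : inner ℝ (v 5) (v 7) = (-3 / 4 : ℝ) := by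
    rcases (h.cell 0 2 5 7 9 11 12 14 (by decide)).normal_or hV (by rw [e02]; norm_num)
      q57 q911 q1214 with h' | h'
    · rw [e02] at h'; norm_num at h'
    · exact h'
  have n810 : inner ℝ (v 8) (v 10) = (-3 / 4 : ℝ) := by
    rcases (h.cell 1 3 8 10 4 6 13 15 (by decide)).normal_or hV (by rw [e13]; norm_num)
      q810 q46 q1315 with h' | h'
    · rw [e13] at h'; norm_num at h'
    · exact h'
  have n510 : inner ℝ (v 5) (v 10) = (-3 / 4 : ℝ) := by
    rcases (h.cell 0 15 5 10 3 12 6 9 (by decide)).normal_or hV (by rw [e015]; norm_num)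
      q510 q312 q69 with h' | h'
    · rw [e015] at h'; norm_num at h'
    · exact h'
  have n78 : inner ℝ (v 7) (v 8) = (-3 / 4 : ℝ) := by
    rcases (h.cell 1 14 7 8 2 13 4 11 (by decide)).normal_or hV (by rw [e114]; norm_num)
      q78 q213 q411 with h' | h'
    · rw [e114] at h'; norm_num at h'
    · exact h'
  have a58 : inner ℝ (v 5) (v 8) = (1 / 4 : ℝ) := h.adj _ _ (by decide)
  have a710 : inner ℝ (v 7) (v 10) = (1 / 4 : ℝ) := h.adj _ _ (by decide)
  have hS : inner ℝ (v 5 + v 7 + v 8 + v 10) (v 5 + v 7 + v 8 + v 10) = (0 : ℝ) := by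
    simp only [inner_add_left, inner_add_right]
    rw [real_inner_comm (v 5) (v 7), real_inner_comm (v 5) (v 8), real_inner_comm (v 5) (v 10),
      real_inner_comm (v 7) (v 8), real_inner_comm (v 7) (v 10), real_inner_comm (v 8) (v 10),
      h.nrm, h.nrm, h.nrm, h.nrm, n57, n810, n510, n78, a58, a710]
    norm_num
  have hS0 := inner_self_eq_zero.1 hS
  have : inner ℝ (v 0) (v 5 + v 7 + v 8 + v 10) = (0 : ℝ) := by rw [hS0]; simp
  simp only [inner_add_right] at this
  rw [h.adj 0 5 (by decide), h.adj 0 7 (by decide), h.adj 0 10 (by decide)] at this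
  rw [h01, h.adj 1 8 (by decide)] at this
  norm_num at this

end Config

end Pool.Agent.Hhelper57.UD
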