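import Mathlib

set_option autoImplicit false

namespace Pool.Agent.Hhelper57.UD

open Module

variable {V : Type*} [NormedAddCommGroup V] [InnerProductSpace ℝ V]

/-- Seven vectors in a space of dimension six satisfy a nontrivial linear relation. -/
lemma dep7 [FiniteDimensional ℝ V] (hV : finrank ℝ V = 6) (w : Fin 7 → V) :
    ∃ c : Fin 7 → ℝ, (∑ i, c i • w i = 0) ∧ ∃ i, c i ≠ 0 := by
  have h : ¬ LinearIndependent ℝ w := by
    intro h
    have := h.fintype_card_le_finrank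
    rw [hV] at this
    simp at this
  exact Fintype.not_linearIndependent_iff.1 h

/-- the pairing of the relation with a vector -/
lemma dep7_inner (w : Fin 7 → V) (c : Fin 7 → ℝ) (hc : ∑ i, c i • w i = 0) (z : V) :
    ∑ i, c i * inner ℝ (w i) z = 0 := by
  have : inner ℝ (∑ i, c i • w i) z = (0 : ℝ) := by rw [hc]; simp
  rw [sum_inner] at this
  simpa [real_inner_smul_left] using this

lemma no_clique7 [FiniteDimensional ℝ V] (hV : finrank ℝ V = 6) (w : Fin 7 → V)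
    (h1 : ∀ i, inner ℝ (w i) (w i) = (5 / 4 : ℝ))
    (h2 : ∀ i j, i ≠ j → inner ℝ (w i) (w j) = (1 / 4 : ℝ)) : False := by
  obtain ⟨c, hc, i, hi⟩ := dep7 hV w
  have key : ∀ j, c j + (∑ k, c k) / 4 = 0 := by
    intro j
    have h := dep7_inner w c hc (w j)
    have h3 : ∀ k, c k * inner ℝ (w k) (w j) = c k / 4 + (if k = j then c j else 0) := by
      intro k
      by_cases hk : k = j
      · subst hk; rw [h1]; simp; ring
      · rw [h2 k j hk]; simp [hk]; ring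
    rw [Finset.sum_congr rfl (fun k _ => h3 k), Finset.sum_add_distrib] at h
    simp at h
    rw [← Finset.sum_div] at h
    linarith
  have hsum : ∑ j : Fin 7, (c j + (∑ k, c k) / 4) = 0 := by
    rw [Finset.sum_congr rfl (fun k _ => key k)]; simp
  rw [Finset.sum_add_distrib] at hsum
  simp at hsum
  have h0 : ∑ k, c k = 0 := by linarith
  have := key i
  rw [h0] at this
  apply hi; linarith

/-- `Cell V a a' b b' c c' d d'`: four mutually adjacent pairs -/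
structure Cell (a a' b b' c c' d d' : V) : Prop where
  naa : inner ℝ a a = (5 / 4 : ℝ)
  na'a' : inner ℝ a' a' = (5 / 4 : ℝ)
  nbb : inner ℝ b b = (5 / 4 : ℝ)
  nb'b' : inner ℝ b' b' = (5 / 4 : ℝ)
  ncc : inner ℝ c c = (5 / 4 : ℝ)
  nc'c' : inner ℝ c' c' = (5 / 4 : ℝ)
  ndd : inner ℝ d d = (5 / 4 : ℝ)
  nd'd' : inner ℝ d' d' = (5 / 4 : ℝ)
  ab : inner ℝ a b = (1 / 4 : ℝ)
  ab' : inner ℝ a b' = (1 / 4 : ℝ)
  a'b : inner ℝ a' b = (1 / 4 : ℝ)
  a'b' : inner ℝ a' b' = (1 / 4 : ℝ)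
  ac : inner ℝ a c = (1 / 4 : ℝ)
  ac' : inner ℝ a c' = (1 / 4 : ℝ)
  a'c : inner ℝ a' c = (1 / 4 : ℝ)
  a'c' : inner ℝ a' c' = (1 / 4 : ℝ)
  ad : inner ℝ a d = (1 / 4 : ℝ)
  ad' : inner ℝ a d' = (1 / 4 : ℝ)
  a'd : inner ℝ a' d = (1 / 4 : ℝ)
  a'd' : inner ℝ a' d' = (1 / 4 : ℝ)
  bc : inner ℝ b c = (1 / 4 : ℝ)
  bc' : inner ℝ b c' = (1 / 4 : ℝ)
  b'c : inner ℝ b' c = (1 / 4 : ℝ)
  b'c' : inner ℝ b' c' = (1 / 4 : ℝ)
  bd : inner ℝ b d = (1 / 4 : ℝ)
  bd' : inner ℝ b d' = (1 / 4 : ℝ)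
  b'd : inner ℝ b' d = (1 / 4 : ℝ)
  b'd' : inner ℝ b' d' = (1 / 4 : ℝ)
  cd : inner ℝ c d = (1 / 4 : ℝ)
  cd' : inner ℝ c d' = (1 / 4 : ℝ)
  c'd : inner ℝ c' d = (1 / 4 : ℝ)
  c'd' : inner ℝ c' d' = (1 / 4 : ℝ)

/-- basic consequence of a linear relation among three pairs and a single vector -/
lemma seven_rel [FiniteDimensional ℝ V] (hV : finrank ℝ V = 6)
    {a a' b b' c c' d : V}
    (naa : inner ℝ a a = (5 / 4 : ℝ))
    (na'a' : inner ℝ a' a' = (5 / 4 : ℝ))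
    (nbb : inner ℝ b b = (5 / 4 : ℝ))
    (nb'b' : inner ℝ b' b' = (5 / 4 : ℝ))
    (ncc : inner ℝ c c = (5 / 4 : ℝ))
    (nc'c' : inner ℝ c' c' = (5 / 4 : ℝ))
    (ndd : inner ℝ d d = (5 / 4 : ℝ))
    (ab : inner ℝ a b = (1 / 4 : ℝ))
    (ab' : inner ℝ a b' = (1 / 4 : ℝ))
    (a'b : inner ℝ a' b = (1 / 4 : ℝ))
    (a'b' : inner ℝ a' b' = (1 / 4 : ℝ))
    (ac : inner ℝ a c = (1 / 4 : ℝ))
    (ac' : inner ℝ a c' = (1 / 4 : ℝ))
    (a'c : inner ℝ a' c = (1 / 4 : ℝ))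
    (a'c' : inner ℝ a' c' = (1 / 4 : ℝ))
    (ad : inner ℝ a d = (1 / 4 : ℝ))
    (a'd : inner ℝ a' d = (1 / 4 : ℝ))
    (bc : inner ℝ b c = (1 / 4 : ℝ))
    (bc' : inner ℝ b c' = (1 / 4 : ℝ))
    (b'c : inner ℝ b' c = (1 / 4 : ℝ))
    (b'c' : inner ℝ b' c' = (1 / 4 : ℝ))
    (bd : inner ℝ b d = (1 / 4 : ℝ))
    (b'd : inner ℝ b' d = (1 / 4 : ℝ))
    (cd : inner ℝ c d = (1 / 4 : ℝ))
    (c'd : inner ℝ c' d = (1 / 4 : ℝ)) :
    ∃ x x' y y' z z' t s : ℝ, s = x + x' + y + y' + z + z' + t ∧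
      x + (inner ℝ a a' - 1 / 4) * x' + s / 4 = 0 ∧
      (inner ℝ a a' - 1 / 4) * x + x' + s / 4 = 0 ∧
      y + (inner ℝ b b' - 1 / 4) * y' + s / 4 = 0 ∧
      (inner ℝ b b' - 1 / 4) * y + y' + s / 4 = 0 ∧
      z + (inner ℝ c c' - 1 / 4) * z' + s / 4 = 0 ∧
      (inner ℝ c c' - 1 / 4) * z + z' + s / 4 = 0 ∧
      t + s / 4 = 0 ∧ ¬ (x = 0 ∧ x' = 0 ∧ y = 0 ∧ y' = 0 ∧ z = 0 ∧ z' = 0 ∧ t = 0) := by
  obtain ⟨e, he, i, hi⟩ := dep7 hV ![a, a', b, b', c, c', d]
  refine ⟨e 0, e 1, e 2, e 3, e 4, e 5, e 6, e 0 + e 1 + e 2 + e 3 + e 4 + e 5 + e 6, rfl, ?_⟩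
  have H := dep7_inner _ e he
  have Ha := H a
  have Ha' := H a'
  have Hb := H b
  have Hb' := H b'
  have Hc := H c
  have Hc' := H c'
  have Hd := H d
  simp only [Fin.sum_univ_seven] at Ha Ha' Hb Hb' Hc Hc' Hd
  simp only [Matrix.cons_val] at Ha Ha' Hb Hb' Hc Hc' Hd
  rw [naa, real_inner_comm a a', real_inner_comm a b, real_inner_comm a b',
    real_inner_comm a c, real_inner_comm a c', real_inner_comm a d, ab, ab', ac, ac', ad] at Ha
  rw [na'a', real_inner_comm a' b, real_inner_comm a' b',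
    real_inner_comm a' c, real_inner_comm a' c', real_inner_comm a' d, a'b, a'b', a'c, a'c', a'd] at Ha'
  rw [nbb, real_inner_comm b b', real_inner_comm b c, real_inner_comm b c', real_inner_comm b d,
    ab, a'b, bc, bc', bd] at Hb
  rw [nb'b', real_inner_comm b' c, real_inner_comm b' c', real_inner_comm b' d,
    ab', a'b', b'c, b'c', b'd] at Hb'
  rw [ncc, real_inner_comm c c', real_inner_comm c d, ac, a'c, bc, b'c, cd] at Hc
  rw [nc'c', real_inner_comm c' d, ac', a'c', bc', b'c', c'd] at Hc'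
  rw [ndd, ad, a'd, bd, b'd, cd, c'd] at Hd
  refine ⟨by linarith, by linarith, by linarith, by linarith, by linarith, by linarith,
    by linarith, ?_⟩
  rintro ⟨h0, h1, h2, h3, h4, h5, h6⟩
  apply hi
  fin_cases i <;> assumption

/-- the pair is exceptional: neither collapsed nor at the original distance -/
def Exc (a a' : V) : Prop := inner ℝ a a' ≠ (5 / 4 : ℝ) ∧ inner ℝ a a' ≠ (-3 / 4 : ℝ)

lemma Exc.sym {a a' : V} (h : Exc a a') : Exc a' a := by
  unfold Exc at *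
  rwa [real_inner_comm a a']

namespace Cell

variable {a a' b b' c c' d d' : V}

/-- rotate the four pairs -/
lemma rot (h : Cell a a' b b' c c' d d') : Cell b b' c c' d d' a a' := by
  constructor
  all_goals first
    | exact h.nbb | exact h.nb'b' | exact h.ncc | exact h.nc'c' | exact h.ndd | exact h.nd'd'
    | exact h.naa | exact h.na'a'
    | exact h.bc | exact h.bc' | exact h.b'c | exact h.b'c'
    | exact h.bd | exact h.bd' | exact h.b'd | exact h.b'd'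
    | exact h.cd | exact h.cd' | exact h.c'd | exact h.c'd'
    | (rw [real_inner_comm]; first
        | exact h.ab | exact h.ab' | exact h.a'b | exact h.a'b'
        | exact h.ac | exact h.ac' | exact h.a'c | exact h.a'c'
        | exact h.ad | exact h.ad' | exact h.a'd | exact h.a'd')

/-- swap the first two pairs -/
lemma swap (h : Cell a a' b b' c c' d d') : Cell b b' a a' c c' d d' := by
  constructor
  all_goals first
    | exact h.nbb | exact h.nb'b' | exact h.ncc | exact h.nc'c' | exact h.ndd | exact h.nd'd'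
    | exact h.naa | exact h.na'a'
    | exact h.bc | exact h.bc' | exact h.b'c | exact h.b'c'
    | exact h.bd | exact h.bd' | exact h.b'd | exact h.b'd'
    | exact h.cd | exact h.cd' | exact h.c'd | exact h.c'd'
    | exact h.ac | exact h.ac' | exact h.a'c | exact h.a'c'
    | exact h.ad | exact h.ad' | exact h.a'd | exact h.a'd'
    | (rw [real_inner_comm]; first
        | exact h.ab | exact h.ab' | exact h.a'b | exact h.a'b')

/-- if one pair is normal then not both of two other pairs are exceptional -/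
lemma B2 [FiniteDimensional ℝ V] (hV : finrank ℝ V = 6) (h : Cell a a' b b' c c' d d')
    (hN : inner ℝ a a' = (-3 / 4 : ℝ)) (hb : Exc b b') (hc : Exc c c') : False := by
  obtain ⟨x, x', y, y', z, z', t, s, hs, h1, h2, h3, h4, h5, h6, h7, h8⟩ :=
    seven_rel hV h.naa h.na'a' h.nbb h.nb'b' h.ncc h.nc'c' h.ndd h.ab h.ab' h.a'b h.a'b'
      h.ac h.ac' h.a'c h.a'c' h.ad h.a'd h.bc h.bc' h.b'c h.b'c' h.bd h.b'd h.cd h.c'd
  rw [hN] at h1 h2
  have hs0 : s = 0 := by linarith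
  subst hs0
  set p := inner ℝ b b' - 1 / 4 with hp
  set q := inner ℝ c c' - 1 / 4 with hq
  have hp1 : p ≠ 1 := by intro hh; apply hb.1; rw [hp] at hh; linarith
  have hp2 : p ≠ -1 := by intro hh; apply hb.2; rw [hp] at hh; linarith
  have hq1 : q ≠ 1 := by intro hh; apply hc.1; rw [hq] at hh; linarith
  have hq2 : q ≠ -1 := by intro hh; apply hc.2; rw [hq] at hh; linarith
  have two : ∀ (r u u' : ℝ), r ≠ 1 → r ≠ -1 → u + r * u' + 0 / 4 = 0 → r * u + u' + 0 / 4 = 0 →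
      u = 0 ∧ u' = 0 := by
    intro r u u' hr1 hr2 e1 e2
    have e3 : (1 - r) * (1 + r) * u = 0 := by linear_combination e1 - r * e2
    have hr1' : (1 - r) ≠ 0 := fun hh => hr1 (by linarith)
    have hr2' : (1 + r) ≠ 0 := fun hh => hr2 (by linarith)
    have hu : u = 0 := by
      rcases mul_eq_zero.1 e3 with h' | h'
      · exact absurd h' (mul_ne_zero hr1' hr2')
      · exact h'
    subst hu
    exact ⟨rfl, by linarith⟩
  obtain ⟨hy, hy'⟩ := two p y y' hp1 hp2 h3 h4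
  obtain ⟨hz, hz'⟩ := two q z z' hq1 hq2 h5 h6
  have ht : t = 0 := by linarith
  have hx : x = 0 := by linarith
  have hx' : x' = 0 := by linarith
  exact h8 ⟨hx, hx', hy, hy', hz, hz', ht⟩

/-- three exceptional pairs: the reciprocals sum to `-5/2` -/
lemma triple [FiniteDimensional ℝ V] (hV : finrank ℝ V = 6) (h : Cell a a' b b' c c' d d')
    (ha : Exc a a') (hb : Exc b b') (hc : Exc c c') :
    1 / (inner ℝ a a' + 3 / 4) + 1 / (inner ℝ b b' + 3 / 4) + 1 / (inner ℝ c c' + 3 / 4)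
      = (-5 / 2 : ℝ) := by
  obtain ⟨x, x', y, y', z, z', t, s, hs, h1, h2, h3, h4, h5, h6, h7, h8⟩ :=
    seven_rel hV h.naa h.na'a' h.nbb h.nb'b' h.ncc h.nc'c' h.ndd h.ab h.ab' h.a'b h.a'b'
      h.ac h.ac' h.a'c h.a'c' h.ad h.a'd h.bc h.bc' h.b'c h.b'c' h.bd h.b'd h.cd h.c'd
  set p := inner ℝ a a' with hp
  set q := inner ℝ b b' with hq
  set r := inner ℝ c c' with hr
  have sol : ∀ (p u u' : ℝ), p ≠ 5 / 4 → p ≠ -3 / 4 → u + (p - 1 / 4) * u' + s / 4 = 0 →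
      (p - 1 / 4) * u + u' + s / 4 = 0 →
      u = -(s / 4) * (1 / (p + 3 / 4)) ∧ u' = -(s / 4) * (1 / (p + 3 / 4)) := by
    intro p u u' hp1 hp2 e1 e2
    have e3 : (5 / 4 - p) * (u - u') = 0 := by linear_combination e1 - e2
    have hne : (5 / 4 - p) ≠ 0 := fun hh => hp1 (by linarith)
    have hne2 : p + 3 / 4 ≠ 0 := fun hh => hp2 (by linarith)
    have huu : u - u' = 0 := by
      rcases mul_eq_zero.1 e3 with h' | h'
      · exact absurd h' hne
      · exact h'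
    have e4 : u' = u := by linarith
    subst e4
    have : u' * (p + 3 / 4) = -(s / 4) := by linear_combination e1
    have h9 : u' = -(s / 4) * (1 / (p + 3 / 4)) := by
      rw [mul_one_div, eq_div_iff hne2]
      exact this
    exact ⟨h9, h9⟩
  obtain ⟨hx, hx'⟩ := sol p x x' ha.1 ha.2 h1 h2
  obtain ⟨hy, hy'⟩ := sol q y y' hb.1 hb.2 h3 h4
  obtain ⟨hz, hz'⟩ := sol r z z' hc.1 hc.2 h5 h6
  have hs0 : s ≠ 0 := by
    intro h0
    apply h8
    rw [hx, hx', hy, hy', hz, hz']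
    have : t = 0 := by rw [h0] at h7; linarith
    simp [h0, this]
  set P := 1 / (p + 3 / 4)
  set Q := 1 / (q + 3 / 4)
  set R := 1 / (r + 3 / 4)
  have h10 : s * (P + Q + R + 5 / 2) = 0 := by
    have ht : t = -(s / 4) := by linarith
    rw [hx, hx', hy, hy', hz, hz', ht] at hs
    linear_combination 2 * hs
  rcases mul_eq_zero.1 h10 with h' | h'
  · exact absurd h' hs0
  · linarith

lemma lower {a a' : V} (h1 : inner ℝ a a = (5 / 4 : ℝ)) (h2 : inner ℝ a' a' = (5 / 4 : ℝ)) :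
    (-5 / 4 : ℝ) ≤ inner ℝ a a' := by
  have h : (0 : ℝ) ≤ inner ℝ (a + a') (a + a') := real_inner_self_nonneg
  rw [inner_add_left, inner_add_right, inner_add_right, real_inner_comm a a', h1, h2] at h
  linarith

/-- not all four pairs are exceptional -/
lemma B1 [FiniteDimensional ℝ V] (hV : finrank ℝ V = 6) (h : Cell a a' b b' c c' d d')
    (ha : Exc a a') (hb : Exc b b') (hc : Exc c c') (hd : Exc d d') : False := by
  have t1 := h.triple hV ha hb hc
  have t2 := h.rot.triple hV hb hc hd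
  have t3 := h.rot.rot.triple hV hc hd ha
  have t4 := h.rot.rot.rot.triple hV hd ha hb
  set P := 1 / (inner ℝ a a' + 3 / 4 : ℝ) with hP
  set Q := 1 / (inner ℝ b b' + 3 / 4 : ℝ)
  set R := 1 / (inner ℝ c c' + 3 / 4 : ℝ)
  set S := 1 / (inner ℝ d d' + 3 / 4 : ℝ)
  have h1 : P = -5 / 6 := by linarith
  have hne : (inner ℝ a a' + 3 / 4 : ℝ) ≠ 0 := fun hh => ha.2 (by linarith)
  have h2 : (inner ℝ a a' + 3 / 4 : ℝ) * (-5 / 6) = 1 := by
    rw [← h1, hP]; exact mul_one_div_cancel hne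
  have := lower h.naa h.na'a'
  linarith

/-- In a cell without collapsed pairs, of any two distinct pairs one is normal. -/
lemma normal_or [FiniteDimensional ℝ V] (hV : finrank ℝ V = 6) (h : Cell a a' b b' c c' d d')
    (ha : inner ℝ a a' ≠ (5 / 4 : ℝ)) (hb : inner ℝ b b' ≠ (5 / 4 : ℝ))
    (hc : inner ℝ c c' ≠ (5 / 4 : ℝ)) (hd : inner ℝ d d' ≠ (5 / 4 : ℝ)) :
    inner ℝ a a' = (-3 / 4 : ℝ) ∨ inner ℝ b b' = (-3 / 4 : ℝ) := by
  by_contra hcon
  push Not at hcon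
  have ea : Exc a a' := ⟨ha, hcon.1⟩
  have eb : Exc b b' := ⟨hb, hcon.2⟩
  by_cases h3 : inner ℝ c c' = (-3 / 4 : ℝ)
  · exact B2 hV h.rot.rot h3 (by
      -- pairs after rotation: c, d, a, b
      by_cases h4 : inner ℝ d d' = (-3 / 4 : ℝ)
      · exact (B2 hV h.rot.rot.rot h4 ea eb).elim
      · exact ⟨hd, h4⟩) ea
  · by_cases h4 : inner ℝ d d' = (-3 / 4 : ℝ)
    · exact B2 hV h.rot.rot.rot h4 ea eb
    · exact B1 hV h ea eb ⟨hc, h3⟩ ⟨hd, h4⟩

end Cell

end Pool.Agent.Hhelper57.UD
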