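import Pool.Agent.Hhelper57.UDNormal

set_option autoImplicit false

namespace Pool.Agent.Hhelper57.UD

open Module

/-- Euclidean spaces of dimension eight and nine -/
abbrev E8 := EuclideanSpace ℝ (Fin 8)
abbrev E9 := EuclideanSpace ℝ (Fin 9)

/-- coordinate of a vertex -/
noncomputable def bc (i : Fin 5) (s : Fin 16) : ℝ := if side i s then 1 else 0

/-- the sixteen vertices of the halved 5-cube -/
noncomputable def cpt (s : Fin 16) : E8 :=
  !₂[bc 0 s, bc 1 s, bc 2 s, bc 3 s, bc 4 s, 0, 0, 0]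

/-- the four apexes -/
noncomputable def apx (j : Fin 4) : E8 :=
  !₂[1 / 2, 1 / 2, 1 / 2, 1 / 2, 1 / 2,
    (![1, 1, -1, -1] : Fin 4 → ℝ) j / 2, (![1, -1, 1, -1] : Fin 4 → ℝ) j / 2,
    (![1, -1, -1, 1] : Fin 4 → ℝ) j / 2]

lemma bc_sub_sq (i : Fin 5) (s t : Fin 16) :
    (bc i s - bc i t) ^ 2 = if side i s = side i t then 0 else 1 := by
  unfold bc
  cases side i s <;> cases side i t <;> norm_num

lemma cpt_dist (s t : Fin 16) : ‖cpt s - cpt t‖ ^ 2 =
    ((∑ i : Fin 5, if side i s = side i t then 0 else 1 : ℕ) : ℝ) := by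
  rw [EuclideanSpace.real_norm_sq_eq, Fin.sum_univ_eight]
  simp only [cpt, PiLp.sub_apply]
  simp only [Matrix.cons_val, bc_sub_sq]
  rw [Fin.sum_univ_five]
  push_cast
  ring

lemma dec_d2 : ∀ s t : Fin 16, adjB s t = true →
    (∑ i : Fin 5, if side i s = side i t then 0 else 1 : ℕ) = 2 := by decide +kernel

lemma dec_d4 : ∀ (i : Fin 5) (s : Fin 16),
    (∑ j : Fin 5, if side j s = side j (s ^^^ g i) then 0 else 1 : ℕ) = 4 := by decide +kernel

lemma cpt_adj (s t : Fin 16) (h : adjB s t = true) : ‖cpt s - cpt t‖ ^ 2 = 2 := by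
  rw [cpt_dist, dec_d2 s t h]; norm_num

lemma cpt_diag (i : Fin 5) (s : Fin 16) : ‖cpt s - cpt (s ^^^ g i)‖ ^ 2 = 4 := by
  rw [cpt_dist, dec_d4 i s]; norm_num

lemma cpt_apx (s : Fin 16) (j : Fin 4) : ‖cpt s - apx j‖ ^ 2 = 2 := by
  rw [EuclideanSpace.real_norm_sq_eq, Fin.sum_univ_eight]
  simp only [cpt, apx, PiLp.sub_apply]
  simp only [Matrix.cons_val]
  have hb : ∀ i : Fin 5, (bc i s - 1 / 2) ^ 2 = 1 / 4 := by
    intro i; unfold bc; cases side i s <;> norm_num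
  rw [hb, hb, hb, hb, hb]
  fin_cases j <;> norm_num

lemma apx_apx (j k : Fin 4) (h : j ≠ k) : ‖apx j - apx k‖ ^ 2 = 2 := by
  rw [EuclideanSpace.real_norm_sq_eq, Fin.sum_univ_eight]
  simp only [apx, PiLp.sub_apply]
  simp only [Matrix.cons_val]
  fin_cases j <;> fin_cases k <;> first | (exact absurd rfl h) | norm_num

/-- an inner product from distances -/
lemma inner_of_norms {E : Type*} [NormedAddCommGroup E] [InnerProductSpace ℝ E] (x y : E)
    (a b c : ℝ) (hx : ‖x‖ ^ 2 = a) (hy : ‖y‖ ^ 2 = b) (hxy : ‖x - y‖ ^ 2 = c) :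
    inner ℝ x y = (a + b - c) / 2 := by
  have := norm_sub_sq_real x y
  rw [hx, hy, hxy] at this
  linarith

/-- Abstract form: maps of the twenty points into `E9` give a configuration in dimension six. -/
theorem exists_config (X : Fin 16 → E9) (A : Fin 4 → E9)
    (hXX : ∀ s t, adjB s t = true → ‖X s - X t‖ ^ 2 = 2)
    (hXA : ∀ s j, ‖X s - A j‖ ^ 2 = 2)
    (hAA : ∀ j k, j ≠ k → ‖A j - A k‖ ^ 2 = 2) :
    ∃ (K : Submodule ℝ E9) (v : Fin 16 → K), finrank ℝ K = 6 ∧ Config v ∧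
      ∀ s t, ((v s : E9) - (v t : E9)) = X s - X t := by
  set a1 : E9 := A 1 - A 0 with ha1
  set a2 : E9 := A 2 - A 0 with ha2
  set a3 : E9 := A 3 - A 0 with ha3
  have n1 : ‖a1‖ ^ 2 = 2 := hAA 1 0 (by decide)
  have n2 : ‖a2‖ ^ 2 = 2 := hAA 2 0 (by decide)
  have n3 : ‖a3‖ ^ 2 = 2 := hAA 3 0 (by decide)
  have d12 : ‖a1 - a2‖ ^ 2 = 2 := by
    rw [ha1, ha2, sub_sub_sub_cancel_right]; exact hAA 1 2 (by decide)
  have d13 : ‖a1 - a3‖ ^ 2 = 2 := by
    rw [ha1, ha3, sub_sub_sub_cancel_right]; exact hAA 1 3 (by decide)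
  have d23 : ‖a2 - a3‖ ^ 2 = 2 := by
    rw [ha2, ha3, sub_sub_sub_cancel_right]; exact hAA 2 3 (by decide)
  have i12 : inner ℝ a1 a2 = (1 : ℝ) := by rw [inner_of_norms _ _ _ _ _ n1 n2 d12]; norm_num
  have i13 : inner ℝ a1 a3 = (1 : ℝ) := by rw [inner_of_norms _ _ _ _ _ n1 n3 d13]; norm_num
  have i23 : inner ℝ a2 a3 = (1 : ℝ) := by rw [inner_of_norms _ _ _ _ _ n2 n3 d23]; norm_num
  have s1 : inner ℝ a1 a1 = (2 : ℝ) := by rw [real_inner_self_eq_norm_sq]; exact n1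
  have s2 : inner ℝ a2 a2 = (2 : ℝ) := by rw [real_inner_self_eq_norm_sq]; exact n2
  have s3 : inner ℝ a3 a3 = (2 : ℝ) := by rw [real_inner_self_eq_norm_sq]; exact n3
  obtain ⟨Y, hY⟩ : ∃ Y : Fin 16 → E9, Y = fun s => X s - A 0 := ⟨_, rfl⟩
  have nY : ∀ s, ‖Y s‖ ^ 2 = 2 := fun s => by rw [hY]; exact hXA s 0
  have sY : ∀ s, inner ℝ (Y s) (Y s) = (2 : ℝ) := fun s => by
    rw [real_inner_self_eq_norm_sq]; exact nY s
  have Y1 : ∀ s, inner ℝ (Y s) a1 = (1 : ℝ) := fun s => by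
    have : ‖Y s - a1‖ ^ 2 = 2 := by
      rw [hY, ha1]; show ‖(X s - A 0) - (A 1 - A 0)‖ ^ 2 = 2
      rw [sub_sub_sub_cancel_right]; exact hXA s 1
    rw [inner_of_norms _ _ _ _ _ (nY s) n1 this]; norm_num
  have Y2 : ∀ s, inner ℝ (Y s) a2 = (1 : ℝ) := fun s => by
    have : ‖Y s - a2‖ ^ 2 = 2 := by
      rw [hY, ha2]; show ‖(X s - A 0) - (A 2 - A 0)‖ ^ 2 = 2
      rw [sub_sub_sub_cancel_right]; exact hXA s 2
    rw [inner_of_norms _ _ _ _ _ (nY s) n2 this]; norm_num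
  have Y3 : ∀ s, inner ℝ (Y s) a3 = (1 : ℝ) := fun s => by
    have : ‖Y s - a3‖ ^ 2 = 2 := by
      rw [hY, ha3]; show ‖(X s - A 0) - (A 3 - A 0)‖ ^ 2 = 2
      rw [sub_sub_sub_cancel_right]; exact hXA s 3
    rw [inner_of_norms _ _ _ _ _ (nY s) n3 this]; norm_num
  have YY : ∀ s t, adjB s t = true → inner ℝ (Y s) (Y t) = (1 : ℝ) := fun s t hst => by
    have : ‖Y s - Y t‖ ^ 2 = 2 := by
      rw [hY]; show ‖(X s - A 0) - (X t - A 0)‖ ^ 2 = 2
      rw [sub_sub_sub_cancel_right]; exact hXX s t hst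
    rw [inner_of_norms _ _ _ _ _ (nY s) (nY t) this]; norm_num
  set W : Fin 3 → E9 := ![a1, a2, a3] with hW
  have hli : LinearIndependent ℝ W := by
    rw [Fintype.linearIndependent_iff]
    intro c hc
    have hc' : c 0 • a1 + c 1 • a2 + c 2 • a3 = 0 := by
      have := hc
      rw [Fin.sum_univ_three] at this
      simpa [hW] using this
    have e1 : inner ℝ (c 0 • a1 + c 1 • a2 + c 2 • a3) a1 = (0 : ℝ) := by rw [hc']; simp
    have e2 : inner ℝ (c 0 • a1 + c 1 • a2 + c 2 • a3) a2 = (0 : ℝ) := by rw [hc']; simp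
    have e3 : inner ℝ (c 0 • a1 + c 1 • a2 + c 2 • a3) a3 = (0 : ℝ) := by rw [hc']; simp
    simp only [inner_add_left, real_inner_smul_left] at e1 e2 e3
    rw [real_inner_comm a1 a2, real_inner_comm a1 a3, s1, i12, i13] at e1
    rw [real_inner_comm a2 a3, i12, s2, i23] at e2
    rw [i13, i23, s3] at e3
    intro i
    fin_cases i
    · show c 0 = 0; linarith
    · show c 1 = 0; linarith
    · show c 2 = 0; linarith
  set K0 : Submodule ℝ E9 := Submodule.span ℝ (Set.range W) with hK0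
  have hK0r : finrank ℝ K0 = 3 := by
    rw [hK0, finrank_span_eq_card hli]; simp
  have hKr : finrank ℝ K0ᗮ = 6 := by
    have h1 := K0.finrank_add_finrank_orthogonal
    rw [hK0r, finrank_euclideanSpace, Fintype.card_fin] at h1
    omega
  set b : E9 := (1 / 4 : ℝ) • (a1 + a2 + a3) with hb
  have b1 : inner ℝ b a1 = (1 : ℝ) := by
    rw [hb, real_inner_smul_left]; simp only [inner_add_left]
    rw [real_inner_comm a1 a2, real_inner_comm a1 a3, s1, i12, i13]; norm_num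
  have b2 : inner ℝ b a2 = (1 : ℝ) := by
    rw [hb, real_inner_smul_left]; simp only [inner_add_left]
    rw [real_inner_comm a2 a3, i12, s2, i23]; norm_num
  have b3 : inner ℝ b a3 = (1 : ℝ) := by
    rw [hb, real_inner_smul_left]; simp only [inner_add_left]
    rw [i13, i23, s3]; norm_num
  have bb : inner ℝ b b = (3 / 4 : ℝ) := by
    have : inner ℝ b b = inner ℝ b ((1 / 4 : ℝ) • (a1 + a2 + a3)) := by rw [← hb]
    rw [this, real_inner_smul_right]; simp only [inner_add_right]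
    rw [b1, b2, b3]; norm_num
  have Yb : ∀ s, inner ℝ (Y s) b = (3 / 4 : ℝ) := fun s => by
    rw [hb, real_inner_smul_right]; simp only [inner_add_right]
    rw [Y1, Y2, Y3]; norm_num
  have hmem : ∀ s, Y s - b ∈ K0ᗮ := by
    intro s
    rw [Submodule.mem_orthogonal']
    intro u hu
    rw [hK0] at hu
    induction hu using Submodule.span_induction with
    | mem x hx =>
      obtain ⟨i, rfl⟩ := hx
      rw [inner_sub_left]
      fin_cases i
      · show inner ℝ (Y s) a1 - inner ℝ b a1 = (0 : ℝ); rw [Y1, b1]; norm_num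
      · show inner ℝ (Y s) a2 - inner ℝ b a2 = (0 : ℝ); rw [Y2, b2]; norm_num
      · show inner ℝ (Y s) a3 - inner ℝ b a3 = (0 : ℝ); rw [Y3, b3]; norm_num
    | zero => simp
    | add x y _ _ hx hy => rw [inner_add_right, hx, hy, add_zero]
    | smul r x _ hx => rw [real_inner_smul_right, hx, mul_zero]
  refine ⟨K0ᗮ, fun s => ⟨Y s - b, hmem s⟩, hKr, ⟨?_, ?_⟩, ?_⟩
  · intro s
    rw [Submodule.coe_inner]
    show inner ℝ (Y s - b) (Y s - b) = (5 / 4 : ℝ)
    rw [inner_sub_left, inner_sub_right, inner_sub_right, real_inner_comm (Y s) b, sY, Yb, bb]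
    norm_num
  · intro s t hst
    rw [Submodule.coe_inner]
    show inner ℝ (Y s - b) (Y t - b) = (1 / 4 : ℝ)
    rw [inner_sub_left, inner_sub_right, inner_sub_right, real_inner_comm (Y t) b,
      YY s t hst, Yb, Yb, bb]
    norm_num
  · intro s t
    show (Y s - b) - (Y t - b) = X s - X t
    rw [sub_sub_sub_cancel_right, hY]
    show (X s - A 0) - (X t - A 0) = X s - X t
    rw [sub_sub_sub_cancel_right]

/-- moving the configuration to a prescribed diagonal -/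
lemma exists_move (x y : E8) (h : ‖x - y‖ ^ 2 = 4) :
    ∃ φ : E8 → E8, (∀ p q, ‖φ p - φ q‖ = ‖p - q‖) ∧ φ (cpt 0) = x ∧ φ (cpt 1) = y := by
  have h1 : ‖cpt 1 - cpt 0‖ ^ 2 = 4 := by
    have := cpt_diag 0 0
    rw [norm_sub_rev]
    exact this
  have h2 : ‖cpt 1 - cpt 0‖ = ‖y - x‖ := by
    have e : ‖cpt 1 - cpt 0‖ ^ 2 = ‖y - x‖ ^ 2 := by rw [h1, norm_sub_rev y x, h]
    exact (sq_eq_sq₀ (norm_nonneg _) (norm_nonneg _)).1 e
  set R : E8 ≃ₗᵢ[ℝ] E8 := (ℝ ∙ ((cpt 1 - cpt 0) - (y - x)))ᗮ.reflection with hR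
  have hR1 : R (cpt 1 - cpt 0) = y - x := Submodule.reflection_sub h2
  refine ⟨fun p => x + R (p - cpt 0), ?_, ?_, ?_⟩
  · intro p q
    simp only [add_sub_add_left_eq_sub]
    rw [← map_sub, LinearIsometryEquiv.norm_map]
    congr 1; abel
  · simp
  · simp only [hR1]; abel

/-- no two points at distance two are identified -/
theorem no_coll (f : E8 → E9) (hf : ∀ x y, ‖x - y‖ ^ 2 = 2 → ‖f x - f y‖ ^ 2 = 2)
    (x y : E8) (h : ‖x - y‖ ^ 2 = 4) : f x ≠ f y := by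
  obtain ⟨φ, h1, h2, h3⟩ := exists_move x y h
  obtain ⟨K, v, hK, hC, hv⟩ := exists_config (fun s => f (φ (cpt s))) (fun j => f (φ (apx j)))
    (fun s t hst => hf _ _ (by rw [h1]; exact cpt_adj s t hst))
    (fun s j => hf _ _ (by rw [h1]; exact cpt_apx s j))
    (fun j k hjk => hf _ _ (by rw [h1]; exact apx_apx j k hjk))
  have h4 := hC.no_collapse hK
  intro hxy
  apply h4
  have := hv 0 1
  rw [h2, h3, hxy, sub_self, sub_eq_zero] at this
  exact Subtype.ext this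

/-- points at distance two keep their distance -/
theorem pres_two (f : E8 → E9) (hf : ∀ x y, ‖x - y‖ ^ 2 = 2 → ‖f x - f y‖ ^ 2 = 2)
    (x y : E8) (h : ‖x - y‖ ^ 2 = 4) : ‖f x - f y‖ ^ 2 = 4 := by
  obtain ⟨φ, h1, h2, h3⟩ := exists_move x y h
  obtain ⟨K, v, hK, hC, hv⟩ := exists_config (fun s => f (φ (cpt s))) (fun j => f (φ (apx j)))
    (fun s t hst => hf _ _ (by rw [h1]; exact cpt_adj s t hst))
    (fun s j => hf _ _ (by rw [h1]; exact cpt_apx s j))
    (fun j k hjk => hf _ _ (by rw [h1]; exact apx_apx j k hjk))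
  have hnc : ∀ (i : Fin 5) (s : Fin 16), v s ≠ v (s ^^^ g i) := by
    intro i s hs
    have h5 : f (φ (cpt s)) ≠ f (φ (cpt (s ^^^ g i))) :=
      no_coll f hf _ _ (by rw [h1]; exact cpt_diag i s)
    apply h5
    have := hv s (s ^^^ g i)
    rw [hs, sub_self] at this
    exact (sub_eq_zero.1 this.symm)
  have h4 := hC.normal01 hK hnc
  have h5 := hv 0 1
  rw [h2, h3] at h5
  rw [← h5, ← real_inner_self_eq_norm_sq, inner_sub_left, inner_sub_right, inner_sub_right]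
  rw [Submodule.coe_inner] at h4
  have n0 := hC.nrm 0
  have n1 := hC.nrm 1
  rw [Submodule.coe_inner] at n0 n1
  rw [real_inner_comm (v 0 : E9) (v 1 : E9), n0, n1, h4]
  norm_num

end Pool.Agent.Hhelper57.UD
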