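import Pool.Agent.Hhelper57.UDGeom

set_option autoImplicit false

namespace Pool.Agent.Hhelper57.UD

open Module

/-- `f` preserves the distance `t` -/
def Pres (f : E8 → E9) (t : ℝ) : Prop := ∀ x y, ‖x - y‖ = t → ‖f x - f y‖ = t

lemma pres_sqrt2 {f : E8 → E9} {t : ℝ} (ht : 0 < t) (h : Pres f t) : Pres f (√2 * t) := by
  have h2 : (0 : ℝ) < √2 := by positivity
  have h22 : √2 * √2 = (2 : ℝ) := Real.mul_self_sqrt (by norm_num)
  set l : ℝ := t / √2 with hl
  have hl0 : 0 < l := by positivity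
  have hlt : √2 * l = t := by rw [hl]; field_simp
  set F : E8 → E9 := fun p => l⁻¹ • f (l • p) with hF
  have hFn : ∀ p q, ‖F p - F q‖ = l⁻¹ * ‖f (l • p) - f (l • q)‖ := by
    intro p q
    rw [hF]
    show ‖l⁻¹ • f (l • p) - l⁻¹ • f (l • q)‖ = _
    rw [← smul_sub, norm_smul, Real.norm_of_nonneg (inv_nonneg.2 hl0.le)]
  have hF2 : ∀ p q, ‖p - q‖ ^ 2 = 2 → ‖F p - F q‖ ^ 2 = 2 := by
    intro p q hpq
    have e1 : ‖p - q‖ = √2 := by
      rw [← hpq, Real.sqrt_sq (norm_nonneg _)]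
    have e2 : ‖l • p - l • q‖ = t := by
      rw [← smul_sub, norm_smul, Real.norm_of_nonneg hl0.le, e1, mul_comm, hlt]
    rw [hFn, h _ _ e2]
    have : l⁻¹ * t = √2 := by rw [← hlt]; field_simp
    rw [this, sq, h22]
  intro x y hxy
  have e3 : ‖l⁻¹ • x - l⁻¹ • y‖ ^ 2 = 4 := by
    rw [← smul_sub, norm_smul, Real.norm_of_nonneg (inv_nonneg.2 hl0.le), hxy]
    have : l⁻¹ * (√2 * t) = 2 := by
      rw [← hlt, ← mul_assoc √2 √2 l, h22]; field_simp
    rw [this]; norm_num
  have e4 := pres_two F hF2 _ _ e3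
  rw [hFn, smul_smul, smul_smul, mul_inv_cancel₀ hl0.ne', one_smul, one_smul] at e4
  have e5 : l⁻¹ * ‖f x - f y‖ = 2 := by
    have h5 : 0 ≤ l⁻¹ * ‖f x - f y‖ := by positivity
    have : (l⁻¹ * ‖f x - f y‖) ^ 2 = 2 ^ 2 := by rw [e4]; norm_num
    exact (sq_eq_sq₀ h5 (by norm_num)).1 this
  have e6 : ‖f x - f y‖ = 2 * l := by
    field_simp at e5
    linarith
  rw [e6, ← hlt, ← mul_assoc, h22]

lemma pres_double {f : E8 → E9} {t : ℝ} (ht : 0 < t) (h : Pres f t) : Pres f (2 * t) := by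
  have h2 : (0 : ℝ) < √2 := by positivity
  have h22 : √2 * √2 = (2 : ℝ) := Real.mul_self_sqrt (by norm_num)
  have := pres_sqrt2 (by positivity) (pres_sqrt2 ht h)
  rwa [← mul_assoc, h22] at this

lemma step2 {f : E8 → E9} {t : ℝ} (ht : 0 < t) (h : Pres f t) (a u : E8) (hu : ‖u‖ = t) :
    f (a + u + u) - f (a + u) = f (a + u) - f a := by
  have e1 : ‖f (a + u) - f a‖ = t := h _ _ (by rw [add_sub_cancel_left, hu])
  have e2 : ‖f (a + u + u) - f (a + u)‖ = t := h _ _ (by rw [add_sub_cancel_left, hu])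
  have e3 : ‖f (a + u + u) - f a‖ = 2 * t := pres_double ht h _ _ (by
    rw [add_assoc, add_sub_cancel_left, ← two_smul ℝ u, norm_smul, hu]; norm_num)
  have par := parallelogram_law_with_norm ℝ (f (a + u + u) - f (a + u)) (f (a + u) - f a)
  have e4 : (f (a + u + u) - f (a + u)) + (f (a + u) - f a) = f (a + u + u) - f a := by abel
  rw [e4, e3, e1, e2] at par
  have e5 : ‖(f (a + u + u) - f (a + u)) - (f (a + u) - f a)‖ *
      ‖(f (a + u + u) - f (a + u)) - (f (a + u) - f a)‖ = 0 := by linarith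
  exact sub_eq_zero.1 (norm_eq_zero.1 (mul_self_eq_zero.1 e5))

lemma line_diff {f : E8 → E9} {t : ℝ} (ht : 0 < t) (h : Pres f t) (a u : E8) (hu : ‖u‖ = t)
    (n : ℕ) : f (a + (n : ℝ) • u + u) - f (a + (n : ℝ) • u) = f (a + u) - f a := by
  induction n with
  | zero => simp
  | succ n ih =>
    have : a + ((n + 1 : ℕ) : ℝ) • u = a + (n : ℝ) • u + u := by
      push_cast; rw [add_smul, one_smul, add_assoc]
    rw [this, step2 ht h _ u hu, ih]

lemma line {f : E8 → E9} {t : ℝ} (ht : 0 < t) (h : Pres f t) (a u : E8) (hu : ‖u‖ = t)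
    (n : ℕ) : f (a + (n : ℝ) • u) = f a + (n : ℝ) • (f (a + u) - f a) := by
  induction n with
  | zero => simp
  | succ n ih =>
    have e := line_diff ht h a u hu n
    have : a + ((n + 1 : ℕ) : ℝ) • u = a + (n : ℝ) • u + u := by
      push_cast; rw [add_smul, one_smul, add_assoc]
    rw [this, sub_eq_iff_eq_add.1 e, ih]
    push_cast
    rw [add_smul, one_smul]; abel

lemma pres_mul {f : E8 → E9} {t : ℝ} (ht : 0 < t) (h : Pres f t) (n : ℕ) :
    Pres f (n * t) := by
  rcases Nat.eq_zero_or_pos n with rfl | hn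
  · intro x y hxy
    have : x = y := by
      have : ‖x - y‖ = 0 := by rw [hxy]; simp
      exact sub_eq_zero.1 (norm_eq_zero.1 this)
    rw [this]; simp
  · intro x y hxy
    have hn0 : (0 : ℝ) < n := by exact_mod_cast hn
    set u : E8 := (n : ℝ)⁻¹ • (x - y) with hu
    have hun : ‖u‖ = t := by
      rw [hu, norm_smul, Real.norm_of_nonneg (inv_nonneg.2 hn0.le), hxy]; field_simp
    have hx : x = y + (n : ℝ) • u := by
      rw [hu, smul_smul, mul_inv_cancel₀ hn0.ne', one_smul]; abel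
    have e := line ht h y u hun n
    rw [← hx] at e
    rw [e, add_sub_cancel_left, norm_smul, Real.norm_of_nonneg hn0.le,
      h (y + u) y (by rw [add_sub_cancel_left, hun])]

lemma square {f : E8 → E9} {t : ℝ} (ht : 0 < t) (h : Pres f t) (a u w : E8) (hu : ‖u‖ = t)
    (hw : ‖w‖ = t) (huw : inner ℝ u w = (0 : ℝ)) :
    f (a + u + w) - f (a + u) = f (a + w) - f a ∧
      inner ℝ (f (a + u) - f a) (f (a + w) - f a) = (0 : ℝ) := by
  have h22 : √2 * √2 = (2 : ℝ) := Real.mul_self_sqrt (by norm_num)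
  have hs := pres_sqrt2 ht h
  have nadd : ‖u + w‖ = √2 * t := by
    have e : ‖u + w‖ ^ 2 = (√2 * t) ^ 2 := by
      rw [norm_add_sq_real, hu, hw, huw]
      have : (√2 * t) ^ 2 = (√2 * √2) * (t * t) := by ring
      rw [this, h22]; ring
    exact (sq_eq_sq₀ (norm_nonneg _) (by positivity)).1 e
  have nsub : ‖u - w‖ = √2 * t := by
    have e : ‖u - w‖ ^ 2 = (√2 * t) ^ 2 := by
      rw [norm_sub_sq_real, hu, hw, huw]
      have : (√2 * t) ^ 2 = (√2 * √2) * (t * t) := by ring
      rw [this, h22]; ring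
    exact (sq_eq_sq₀ (norm_nonneg _) (by positivity)).1 e
  obtain ⟨U, hU⟩ : ∃ U, U = f (a + u) - f a := ⟨_, rfl⟩
  obtain ⟨W, hW⟩ : ∃ W, W = f (a + w) - f a := ⟨_, rfl⟩
  obtain ⟨Z, hZ⟩ : ∃ Z, Z = f (a + u + w) - f a := ⟨_, rfl⟩
  have nU : ‖U‖ = t := by rw [hU]; exact h _ _ (by rw [add_sub_cancel_left, hu])
  have nW : ‖W‖ = t := by rw [hW]; exact h _ _ (by rw [add_sub_cancel_left, hw])
  have nZ : ‖Z‖ = √2 * t := by
    rw [hZ]; exact hs _ _ (by rw [add_assoc, add_sub_cancel_left, nadd])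
  have nUW : ‖U - W‖ = √2 * t := by
    rw [hU, hW, sub_sub_sub_cancel_right]
    exact hs _ _ (by rw [add_sub_add_left_eq_sub, nsub])
  have nZU : ‖Z - U‖ = t := by
    rw [hZ, hU, sub_sub_sub_cancel_right]
    exact h _ _ (by rw [add_sub_cancel_left, hw])
  have nZW : ‖Z - W‖ = t := by
    rw [hZ, hW, sub_sub_sub_cancel_right]
    exact h _ _ (by rw [show a + u + w - (a + w) = u by abel, hu])
  have st : (√2 * t) ^ 2 = 2 * t ^ 2 := by
    have : (√2 * t) ^ 2 = (√2 * √2) * (t * t) := by ring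
    rw [this, h22]; ring
  have iUW : inner ℝ U W = (0 : ℝ) := by
    have e := norm_sub_sq_real U W
    rw [nUW, nU, nW, st] at e; linarith
  have iZU : inner ℝ Z U = t ^ 2 := by
    have e := norm_sub_sq_real Z U
    rw [nZU, nZ, nU, st] at e; linarith
  have iZW : inner ℝ Z W = t ^ 2 := by
    have e := norm_sub_sq_real Z W
    rw [nZW, nZ, nW, st] at e; linarith
  have hzero : inner ℝ (Z - U - W) (Z - U - W) = (0 : ℝ) := by
    simp only [inner_sub_left, inner_sub_right]
    rw [real_inner_comm Z U, real_inner_comm Z W, real_inner_comm U W, iUW, iZU, iZW,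
      real_inner_self_eq_norm_sq, real_inner_self_eq_norm_sq, real_inner_self_eq_norm_sq,
      nU, nW, nZ, st]
    ring
  have hz := inner_self_eq_zero.1 hzero
  rw [← hU, ← hW]
  refine ⟨?_, iUW⟩
  have : Z - U = W := sub_eq_zero.1 hz
  rw [← this, hZ, hU]; abel

lemma exists_perp (k : E8) (r : ℝ) (hr : 0 ≤ r) :
    ∃ k' : E8, inner ℝ k k' = (0 : ℝ) ∧ ‖k'‖ = r := by
  have h1 := (Submodule.span ℝ {k} : Submodule ℝ E8).finrank_add_finrank_orthogonal
  have h2 : finrank ℝ (Submodule.span ℝ ({k} : Set E8)) ≤ 1 := (finrank_span_le_card ({k} : Set E8)).trans (by simp)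
  rw [finrank_euclideanSpace, Fintype.card_fin] at h1
  have h3 : 0 < finrank ℝ (Submodule.span ℝ ({k} : Set E8))ᗮ := by omega
  have : Nontrivial (Submodule.span ℝ ({k} : Set E8))ᗮ := Module.nontrivial_of_finrank_pos h3
  obtain ⟨⟨w, hw⟩, hw0⟩ := exists_ne (0 : (Submodule.span ℝ ({k} : Set E8))ᗮ)
  have hw1 : w ≠ 0 := fun e => hw0 (Subtype.ext e)
  have hw2 : inner ℝ k w = (0 : ℝ) :=
    (Submodule.mem_orthogonal _ _).1 hw k (Submodule.mem_span_singleton_self k)
  have hw3 : ‖w‖ ≠ 0 := norm_ne_zero_iff.2 hw1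
  refine ⟨(r / ‖w‖) • w, ?_, ?_⟩
  · rw [real_inner_smul_right, hw2, mul_zero]
  · rw [norm_smul, Real.norm_of_nonneg (by positivity)]; field_simp

lemma pres_contr {f : E8 → E9} {t : ℝ} (ht : 0 < t) (h : Pres f t) :
    Pres f (2 / √5 * t) := by
  have h5 : (0 : ℝ) < √5 := by positivity
  have h55 : √5 ^ 2 = (5 : ℝ) := Real.sq_sqrt (by norm_num)
  have hr2 : (2 / √5 * t) ^ 2 = 4 / 5 * t ^ 2 := by
    rw [mul_pow, div_pow, h55]; ring
  intro x y hxy
  rw [norm_sub_rev] at hxy
  set k : E8 := y - x with hk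
  obtain ⟨k', hk1, hk2⟩ := exists_perp k (2 / √5 * t) (by positivity)
  have nk : inner ℝ k k = 4 / 5 * t ^ 2 := by rw [real_inner_self_eq_norm_sq, hxy, hr2]
  have nk' : inner ℝ k' k' = 4 / 5 * t ^ 2 := by rw [real_inner_self_eq_norm_sq, hk2, hr2]
  set u : E8 := (-(1 / 2) : ℝ) • k - k' with hu
  set w : E8 := k - (1 / 2 : ℝ) • k' with hw
  have nu : ‖u‖ = t := by
    have : ‖u‖ ^ 2 = t ^ 2 := by
      rw [← real_inner_self_eq_norm_sq, hu]
      simp only [inner_sub_left, inner_sub_right, real_inner_smul_left, real_inner_smul_right]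
      rw [real_inner_comm k k', hk1, nk, nk']; ring
    exact (sq_eq_sq₀ (norm_nonneg _) ht.le).1 this
  have nw : ‖w‖ = t := by
    have : ‖w‖ ^ 2 = t ^ 2 := by
      rw [← real_inner_self_eq_norm_sq, hw]
      simp only [inner_sub_left, inner_sub_right, real_inner_smul_left, real_inner_smul_right]
      rw [real_inner_comm k k', hk1, nk, nk']; ring
    exact (sq_eq_sq₀ (norm_nonneg _) ht.le).1 this
  have huw : inner ℝ u w = (0 : ℝ) := by
    rw [hu, hw]
    simp only [inner_sub_left, inner_sub_right, real_inner_smul_left, real_inner_smul_right]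
    rw [real_inner_comm k k', hk1, nk, nk']; ring
  set a : E8 := x - u with ha
  set w' : E8 := (1 / 5 : ℝ) • ((3 : ℝ) • u + (4 : ℝ) • w) with hw'
  have nw' : ‖w'‖ = t := by
    have : ‖w'‖ ^ 2 = t ^ 2 := by
      rw [← real_inner_self_eq_norm_sq, hw']
      simp only [inner_add_left, inner_add_right, real_inner_smul_left, real_inner_smul_right]
      rw [real_inner_comm u w, huw, real_inner_self_eq_norm_sq, real_inner_self_eq_norm_sq, nu, nw]
      ring
    exact (sq_eq_sq₀ (norm_nonneg _) ht.le).1 this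
  have hy : y = a + w' := by
    rw [ha, hw', hu, hw]
    have : y = x + k := by rw [hk]; abel
    rw [this]
    module
  have hx : x = a + u := by rw [ha]; abel
  -- the point a + 5 w' = a + 3 u + 4 w
  have hpt : a + ((5 : ℕ) : ℝ) • w' = a + ((3 : ℕ) : ℝ) • u + ((4 : ℕ) : ℝ) • w := by
    rw [hw']; push_cast; module
  have L1 := line ht h a w' nw' 5
  have L2 := line ht h (a + ((3 : ℕ) : ℝ) • u) w nw 4
  have L3 := line ht h a u nu 3
  have tr : ∀ n : ℕ, f (a + (n : ℝ) • u + w) - f (a + (n : ℝ) • u) = f (a + w) - f a := by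
    intro n
    induction n with
    | zero => simp
    | succ n ih =>
      have e1 : a + ((n + 1 : ℕ) : ℝ) • u = a + (n : ℝ) • u + u := by
        push_cast; rw [add_smul, one_smul, add_assoc]
      rw [e1, (square ht h (a + (n : ℝ) • u) u w nu nw huw).1, ih]
  rw [tr 3] at L2
  rw [hpt, L2, L3] at L1
  obtain ⟨U, hU⟩ : ∃ U, U = f (a + u) - f a := ⟨_, rfl⟩
  obtain ⟨W, hW⟩ : ∃ W, W = f (a + w) - f a := ⟨_, rfl⟩
  have nU : ‖U‖ = t := by rw [hU]; exact h _ _ (by rw [add_sub_cancel_left, nu])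
  have nW : ‖W‖ = t := by rw [hW]; exact h _ _ (by rw [add_sub_cancel_left, nw])
  have iUW : inner ℝ U W = (0 : ℝ) := by
    rw [hU, hW]; exact (square ht h a u w nu nw huw).2
  rw [← hU, ← hW, ← hy] at L1
  have hfy : f y - f a = (1 / 5 : ℝ) • ((3 : ℝ) • U + (4 : ℝ) • W) := by
    have e2 : (5 : ℝ) • (f y - f a) = (3 : ℝ) • U + (4 : ℝ) • W := by
      have e3 : f a + (3 : ℝ) • U + (4 : ℝ) • W = f a + (5 : ℝ) • (f y - f a) := by
        exact_mod_cast L1
      have e4 := sub_eq_zero.2 e3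
      have : (5 : ℝ) • (f y - f a) - ((3 : ℝ) • U + (4 : ℝ) • W) =
          -((f a + (3 : ℝ) • U + (4 : ℝ) • W) - (f a + (5 : ℝ) • (f y - f a))) := by abel
      rw [e4, neg_zero] at this
      exact sub_eq_zero.1 this
    rw [← e2, smul_smul]; norm_num
  have hfx : f x - f a = U := by rw [hU, ← hx]
  have hfxy : f x - f y = U - (1 / 5 : ℝ) • ((3 : ℝ) • U + (4 : ℝ) • W) := by
    have e : f x - f y = (f x - f a) - (f y - f a) := by abel
    rw [e, hfx, hfy]
  have hsq : ‖f x - f y‖ ^ 2 = (2 / √5 * t) ^ 2 := by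
    rw [hr2, ← real_inner_self_eq_norm_sq, hfxy]
    simp only [inner_sub_left, inner_sub_right, inner_add_left, inner_add_right,
      real_inner_smul_left, real_inner_smul_right]
    rw [real_inner_comm U W, iUW, real_inner_self_eq_norm_sq, real_inner_self_eq_norm_sq, nU, nW]
    ring
  exact (sq_eq_sq₀ (norm_nonneg _) (by positivity)).1 hsq

lemma pres_small {f : E8 → E9} {t : ℝ} (ht : 0 < t) (h : Pres f t) (n : ℕ) :
    Pres f ((2 / √5) ^ n * t) := by
  induction n with
  | zero => simpa using h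
  | succ n ih =>
    have h5 : (0 : ℝ) < √5 := by positivity
    have := pres_contr (by positivity) ih
    rw [pow_succ]
    have e : 2 / √5 * ((2 / √5) ^ n * t) = (2 / √5) ^ n * (2 / √5) * t := by ring
    rwa [e] at this

lemma lip {f : E8 → E9} {d : ℝ} (hd : 0 < d) (h : Pres f d) (x y : E8) :
    ‖f x - f y‖ ≤ ‖x - y‖ + 2 * d := by
  set D := ‖x - y‖ with hD
  have hD0 : 0 ≤ D := norm_nonneg _
  set n := ⌊D / d⌋₊ with hn
  have hn1 : (n : ℝ) ≤ D / d := Nat.floor_le (by positivity)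
  have hn2 : D / d < n + 1 := Nat.lt_floor_add_one _
  have hn3 : n * d ≤ D := (le_div_iff₀ hd).1 hn1
  have hn4 : D < (n + 1) * d := (div_lt_iff₀ hd).1 hn2
  -- the point z on the segment at distance n d from x
  obtain ⟨z, hz1, hz2⟩ : ∃ z : E8, ‖x - z‖ = n * d ∧ ‖z - y‖ = D - n * d := by
    rcases eq_or_lt_of_le hD0 with h0 | hpos
    · have : n * d = 0 := le_antisymm (by rw [h0]; exact hn3) (by positivity)
      refine ⟨x, by simp [this], ?_⟩
      rw [this, ← hD]; ring
    · refine ⟨x + (n * d / D) • (y - x), ?_, ?_⟩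
      · rw [sub_add_cancel_left, norm_neg, norm_smul, norm_sub_rev y x, ← hD,
          Real.norm_of_nonneg (by positivity)]
        field_simp
      · have : x + (n * d / D) • (y - x) - y = (1 - n * d / D) • (x - y) := by module
        rw [this, norm_smul, ← hD, Real.norm_of_nonneg]
        · field_simp
        · rw [sub_nonneg, div_le_one hpos]; exact hn3
  have e1 : ‖f x - f z‖ = n * d := pres_mul hd h n _ _ hz1
  set q := D - n * d with hq
  have hq0 : 0 ≤ q := by rw [hq]; linarith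
  have hqd : q < d := by rw [hq]; linarith
  have hnn : 0 ≤ d ^ 2 - q ^ 2 / 4 := by nlinarith
  obtain ⟨k', hk1, hk2⟩ := exists_perp (y - z) (√(d ^ 2 - q ^ 2 / 4)) (by positivity)
  have nq : ‖y - z‖ = q := by rw [norm_sub_rev]; exact hz2
  set p : E8 := z + (1 / 2 : ℝ) • (y - z) + k' with hp
  have p1 : ‖z - p‖ = d := by
    have : ‖z - p‖ ^ 2 = d ^ 2 := by
      have e : z - p = -((1 / 2 : ℝ) • (y - z) + k') := by rw [hp]; abel
      rw [e, norm_neg, norm_add_sq_real, norm_smul, nq, real_inner_smul_left, hk1, hk2,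
        Real.sq_sqrt hnn]
      norm_num
      ring
    exact (sq_eq_sq₀ (norm_nonneg _) hd.le).1 this
  have p2 : ‖p - y‖ = d := by
    have : ‖p - y‖ ^ 2 = d ^ 2 := by
      have e : p - y = (-(1 / 2) : ℝ) • (y - z) + k' := by rw [hp]; module
      rw [e, norm_add_sq_real, norm_smul, nq, real_inner_smul_left, hk1, hk2,
        Real.sq_sqrt hnn]
      norm_num
      ring
    exact (sq_eq_sq₀ (norm_nonneg _) hd.le).1 this
  have e2 : ‖f z - f p‖ = d := h _ _ p1
  have e3 : ‖f p - f y‖ = d := h _ _ p2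
  calc ‖f x - f y‖ = ‖(f x - f z) + (f z - f p) + (f p - f y)‖ := by congr 1; abel
    _ ≤ ‖f x - f z‖ + ‖f z - f p‖ + ‖f p - f y‖ := norm_add₃_le
    _ = n * d + d + d := by rw [e1, e2, e3]
    _ ≤ D + 2 * d := by linarith

/-- Every map from dimension eight to dimension nine preserving a positive distance is an
isometry. -/
theorem isometry_of_pres {f : E8 → E9} {t : ℝ} (ht : 0 < t) (h : Pres f t) (x y : E8) :
    ‖f x - f y‖ = ‖x - y‖ := by
  have h5 : (0 : ℝ) < √5 := by positivity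
  have h25 : 2 / √5 < 1 := by
    rw [div_lt_one h5]
    exact Real.lt_sqrt_of_sq_lt (by norm_num)
  have up : ∀ x y : E8, ‖f x - f y‖ ≤ ‖x - y‖ := by
    intro x y
    have hlim : Filter.Tendsto (fun n : ℕ => ‖x - y‖ + 2 * ((2 / √5) ^ n * t)) Filter.atTop
        (nhds (‖x - y‖ + 2 * (0 * t))) := by
      refine Filter.Tendsto.const_add _ (Filter.Tendsto.const_mul _ (Filter.Tendsto.mul_const _ ?_))
      exact tendsto_pow_atTop_nhds_zero_of_lt_one (by positivity) h25
    have := ge_of_tendsto' hlim (fun n => lip (by positivity) (pres_small ht h n) x y)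
    simpa using this
  apply le_antisymm (up x y)
  set D := ‖x - y‖ with hD
  rcases eq_or_lt_of_le (norm_nonneg (x - y)) with h0 | hpos
  · rw [hD, ← h0]; exact norm_nonneg _
  · rw [← hD] at hpos
    obtain ⟨n, hn⟩ := exists_nat_ge (D / t)
    have hn1 : D ≤ n * t := (div_le_iff₀ ht).1 hn
    have hz1 : ‖x - (x + (n * t / D) • (y - x))‖ = n * t := by
      rw [sub_add_cancel_left, norm_neg, norm_smul, norm_sub_rev y x, ← hD,
          Real.norm_of_nonneg (by positivity)]
      field_simp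
    have hz2 : ‖y - (x + (n * t / D) • (y - x))‖ = n * t - D := by
      have : y - (x + (n * t / D) • (y - x)) = (n * t / D - 1) • (x - y) := by module
      rw [this, norm_smul, ← hD, Real.norm_of_nonneg]
      · field_simp
      · rw [sub_nonneg, one_le_div hpos]; exact hn1
    set z := x + (n * t / D) • (y - x) with hz
    have e1 : ‖f x - f z‖ = n * t := pres_mul ht h n _ _ hz1
    have e2 : ‖f y - f z‖ ≤ n * t - D := (up y z).trans hz2.le
    have e3 : ‖f x - f z‖ ≤ ‖f x - f y‖ + ‖f y - f z‖ := norm_sub_le_norm_sub_add_norm_sub _ _ _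
    linarith

end Pool.Agent.Hhelper57.UD
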