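import Pool.Agent.Hhelper57.UDConf

set_option autoImplicit false

namespace Pool.Agent.Hhelper57.UD

open Module

variable {V : Type*} [NormedAddCommGroup V] [InnerProductSpace ℝ V]

lemma dec_cell : ∀ (i : Fin 5) (s t : Fin 16), side i s = side i t → t ≠ s → t ≠ s ^^^ g i →
    ∃ r : Fin 16, cellB s (s ^^^ g i) t (t ^^^ g i) (s ^^^ r) (s ^^^ r ^^^ g i)
      (t ^^^ r) (t ^^^ r ^^^ g i) = true := by
  decide +kernel

lemma dec_two : ∀ (i : Fin 5) (w : Bool), ∃ s t : Fin 16, side i s = w ∧ side i t = w ∧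
    t ≠ s ∧ t ≠ s ^^^ g i := by
  decide +kernel

lemma dec_adj : ∀ (i : Fin 5) (s t : Fin 16), side i s = side i t → t ≠ s → t ≠ s ^^^ g i →
    adjB t s = true ∧ adjB t (s ^^^ g i) = true := by
  decide +kernel

/-- two vertices on given sides and on different diagonals -/
def twoB (i j : Fin 5) (w w' : Bool) (a b : Fin 16) : Bool :=
  (side i a == w) && (side i b == w) && (side j a == w') && (side j b == w') &&
  (b != a) && (b != a ^^^ g i) && (b != a ^^^ g j)

lemma dec_three : ∀ (i j : Fin 5) (w w' : Bool), i ≠ j → ∃ a b c : Fin 16,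
    (twoB i j w w' a b && twoB i j w w' a c && twoB i j w w' b c) = true := by
  decide +kernel

lemma twoB_spec {i j : Fin 5} {w w' : Bool} {a b : Fin 16} (h : twoB i j w w' a b = true) :
    side i a = w ∧ side i b = w ∧ side j a = w' ∧ side j b = w' ∧
    b ≠ a ∧ b ≠ a ^^^ g i ∧ b ≠ a ^^^ g j := by
  simp only [twoB, Bool.and_eq_true, beq_iff_eq, bne_iff_ne] at h
  obtain ⟨⟨⟨⟨⟨⟨h1, h2⟩, h3⟩, h4⟩, h5⟩, h6⟩, h7⟩ := h
  exact ⟨h1, h2, h3, h4, h5, h6, h7⟩

lemma dec_adj2 : ∀ (i j : Fin 5) (s : Fin 16), i ≠ j →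
    adjB s (s ^^^ g i ^^^ g j) = true ∧ adjB (s ^^^ g i) (s ^^^ g j) = true := by
  decide +kernel

lemma dec_side : ∀ (i j : Fin 5) (s : Fin 16),
    side i (s ^^^ g j) = (if i = j then side i s else !(side i s)) := by
  decide +kernel

lemma dec_invol : ∀ (i : Fin 5) (s : Fin 16), (s ^^^ g i) ^^^ g i = s := by
  decide +kernel

namespace Config

variable {v : Fin 16 → V}

/-- the diagonal through `s` in direction `i` is normal -/
def Nm (v : Fin 16 → V) (i : Fin 5) (s : Fin 16) : Prop :=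
  inner ℝ (v s) (v (s ^^^ g i)) = (-3 / 4 : ℝ)

lemma nm_or [FiniteDimensional ℝ V] (hV : finrank ℝ V = 6) (h : Config v)
    (hnc : ∀ i s, v s ≠ v (s ^^^ g i)) (i : Fin 5) (s t : Fin 16) (h1 : side i s = side i t)
    (h2 : t ≠ s) (h3 : t ≠ s ^^^ g i) : Nm v i s ∨ Nm v i t := by
  obtain ⟨r, hr⟩ := dec_cell i s t h1 h2 h3
  exact (h.cell _ _ _ _ _ _ _ _ hr).normal_or hV (h.ne_of (hnc i _)) (h.ne_of (hnc i _))
    (h.ne_of (hnc i _)) (h.ne_of (hnc i _))

lemma mid [FiniteDimensional ℝ V] (hV : finrank ℝ V = 6) (h : Config v)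
    (hnc : ∀ i s, v s ≠ v (s ^^^ g i)) (i : Fin 5) (w : Bool) :
    ∃ m : V, (∀ s, side i s = w → Nm v i s → v s + v (s ^^^ g i) = (2 : ℝ) • m) ∧
      inner ℝ m m = (1 / 4 : ℝ) ∧ (∀ s, side i s = w → inner ℝ (v s) m = (1 / 4 : ℝ)) ∧
      ∃ s, side i s = w ∧ Nm v i s := by
  have hex : ∃ s0, side i s0 = w ∧ Nm v i s0 := by
    obtain ⟨s, t, hs, ht, h1, h2⟩ := dec_two i w
    rcases nm_or hV h hnc i s t (hs.trans ht.symm) h1 h2 with h' | h'
    · exact ⟨s, hs, h'⟩
    · exact ⟨t, ht, h'⟩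
  obtain ⟨s0, hs0, hN0⟩ := hex
  have hN0' : inner ℝ (v (s0 ^^^ g i)) (v s0) = (-3 / 4 : ℝ) := by
    rw [real_inner_comm]; exact hN0
  have hmm : inner ℝ ((1 / 2 : ℝ) • (v s0 + v (s0 ^^^ g i)))
      ((1 / 2 : ℝ) • (v s0 + v (s0 ^^^ g i))) = (1 / 4 : ℝ) := by
    rw [real_inner_smul_left, real_inner_smul_right]
    simp only [inner_add_left, inner_add_right]
    rw [hN0', h.nrm, h.nrm]
    have : inner ℝ (v s0) (v (s0 ^^^ g i)) = (-3 / 4 : ℝ) := hN0
    rw [this]; norm_num
  have hsm : ∀ s, side i s = w →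
      inner ℝ (v s) ((1 / 2 : ℝ) • (v s0 + v (s0 ^^^ g i))) = (1 / 4 : ℝ) := by
    intro s hs
    rw [real_inner_smul_right, inner_add_right]
    by_cases e1 : s = s0
    · subst e1
      have : inner ℝ (v s) (v (s ^^^ g i)) = (-3 / 4 : ℝ) := hN0
      rw [h.nrm, this]; norm_num
    · by_cases e2 : s = s0 ^^^ g i
      · subst e2
        rw [h.nrm, hN0']; norm_num
      · obtain ⟨k1, k2⟩ := dec_adj i s0 s (hs0.trans hs.symm) e1 e2
        rw [h.adj _ _ k1, h.adj _ _ k2]; norm_num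
  refine ⟨(1 / 2 : ℝ) • (v s0 + v (s0 ^^^ g i)), ?_, hmm, hsm, s0, hs0, hN0⟩
  intro s hs hN
  set m := (1 / 2 : ℝ) • (v s0 + v (s0 ^^^ g i)) with hm
  have e1 := hsm s hs
  have e2 := hsm (s ^^^ g i) (by rw [dec_side]; simpa using hs)
  have hN1 : inner ℝ (v s) (v (s ^^^ g i)) = (-3 / 4 : ℝ) := hN
  have : inner ℝ (v s + v (s ^^^ g i) - (2 : ℝ) • m) (v s + v (s ^^^ g i) - (2 : ℝ) • m)
      = (0 : ℝ) := by
    simp only [inner_sub_left, inner_sub_right, inner_add_left, inner_add_right,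
      real_inner_smul_left, real_inner_smul_right]
    rw [real_inner_comm (v s) (v (s ^^^ g i)), real_inner_comm (v s) m,
      real_inner_comm (v (s ^^^ g i)) m, hN1, e1, e2, hmm, h.nrm, h.nrm]
    norm_num
  exact sub_eq_zero.1 (inner_self_eq_zero.1 this)

lemma orth [FiniteDimensional ℝ V] (hV : finrank ℝ V = 6) (h : Config v)
    (hnc : ∀ i s, v s ≠ v (s ^^^ g i)) (m : Fin 5 → Bool → V)
    (hm : ∀ i w, ∀ s, side i s = w → Nm v i s → v s + v (s ^^^ g i) = (2 : ℝ) • m i w)
    (i j : Fin 5) (w w' : Bool) (hij : i ≠ j) : inner ℝ (m i w) (m j w') = (0 : ℝ) := by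
  have hex : ∃ y, side i y = w ∧ side j y = w' ∧ Nm v i y ∧ Nm v j y := by
    obtain ⟨a, b, c, habc⟩ := dec_three i j w w' hij
    rw [Bool.and_eq_true, Bool.and_eq_true] at habc
    obtain ⟨⟨hab, hac⟩, hbc⟩ := habc
    obtain ⟨a1, b1, a2, b2, n1, n4, n7⟩ := twoB_spec hab
    obtain ⟨-, c1, -, c2, n2, n5, n8⟩ := twoB_spec hac
    obtain ⟨-, -, -, -, n3, n6, n9⟩ := twoB_spec hbc
    have i1 := nm_or hV h hnc i a b (a1.trans b1.symm) n1 n4
    have i2 := nm_or hV h hnc i a c (a1.trans c1.symm) n2 n5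
    have i3 := nm_or hV h hnc i b c (b1.trans c1.symm) n3 n6
    have j1 := nm_or hV h hnc j a b (a2.trans b2.symm) n1 n7
    have j2 := nm_or hV h hnc j a c (a2.trans c2.symm) n2 n8
    have j3 := nm_or hV h hnc j b c (b2.trans c2.symm) n3 n9
    have : (Nm v i a ∧ Nm v j a) ∨ (Nm v i b ∧ Nm v j b) ∨ (Nm v i c ∧ Nm v j c) := by
      revert i1 i2 i3 j1 j2 j3
      generalize Nm v i a = A
      generalize Nm v i b = B
      generalize Nm v i c = C
      generalize Nm v j a = A'
      generalize Nm v j b = B'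
      generalize Nm v j c = C'
      intro i1 i2 i3 j1 j2 j3
      rcases i1 with h1 | h1
      · rcases i3 with h3 | h3
        · rcases j1 with k | k
          · exact Or.inl ⟨h1, k⟩
          · exact Or.inr (Or.inl ⟨h3, k⟩)
        · rcases j2 with k | k
          · exact Or.inl ⟨h1, k⟩
          · exact Or.inr (Or.inr ⟨h3, k⟩)
      · rcases i2 with h3 | h3
        · rcases j1 with k | k
          · exact Or.inl ⟨h3, k⟩
          · exact Or.inr (Or.inl ⟨h1, k⟩)
        · rcases j3 with k | k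
          · exact Or.inr (Or.inl ⟨h1, k⟩)
          · exact Or.inr (Or.inr ⟨h3, k⟩)
    rcases this with h' | h' | h'
    · exact ⟨a, a1, a2, h'⟩
    · exact ⟨b, b1, b2, h'⟩
    · exact ⟨c, c1, c2, h'⟩
  obtain ⟨y, y1, y2, y3, y4⟩ := hex
  have e1 := hm i w y y1 y3
  have e2 := hm j w' y y2 y4
  have h3 : inner ℝ (v y) (v (y ^^^ g i)) = (-3 / 4 : ℝ) := y3
  have h4 : inner ℝ (v y) (v (y ^^^ g j)) = (-3 / 4 : ℝ) := y4
  have : inner ℝ ((2 : ℝ) • m i w) ((2 : ℝ) • m j w') = (0 : ℝ) := by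
    rw [← e1, ← e2]
    simp only [inner_add_left, inner_add_right]
    rw [real_inner_comm (v y) (v (y ^^^ g i)), h3, h4, h.nrm,
      h.adj _ _ (dec_adj2 i j y hij).2]
    norm_num
  rw [real_inner_smul_left, real_inner_smul_right] at this
  linarith

lemma sum_mid [FiniteDimensional ℝ V] (h : Config v) (m : Fin 5 → Bool → V)
    (h2 : ∀ i w, inner ℝ (m i w) (m i w) = (1 / 4 : ℝ))
    (h3 : ∀ i w, ∀ s, side i s = w → inner ℝ (v s) (m i w) = (1 / 4 : ℝ))
    (h4 : ∀ i j w w', i ≠ j → inner ℝ (m i w) (m j w') = (0 : ℝ)) (s : Fin 16) :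
    v s = ∑ i, m i (side i s) := by
  have h5 : inner ℝ (v s - ∑ i, m i (side i s)) (v s - ∑ i, m i (side i s)) = (0 : ℝ) := by
    rw [inner_sub_left, inner_sub_right, inner_sub_right, inner_sum, sum_inner, h.nrm]
    have e1 : ∑ i, inner ℝ (v s) (m i (side i s)) = (5 / 4 : ℝ) := by
      rw [Finset.sum_congr rfl (fun i _ => h3 i _ s rfl)]; norm_num
    have e2 : ∑ i, inner ℝ (m i (side i s)) (v s) = (5 / 4 : ℝ) := by
      rw [Finset.sum_congr rfl (fun i _ => (real_inner_comm _ _).trans (h3 i _ s rfl))]; norm_num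
    have e3 : inner ℝ (∑ i, m i (side i s)) (∑ i, m i (side i s)) = (5 / 4 : ℝ) := by
      rw [sum_inner]
      have : ∀ i : Fin 5, inner ℝ (m i (side i s)) (∑ j, m j (side j s)) = (1 / 4 : ℝ) := by
        intro i
        rw [inner_sum, Finset.sum_eq_single i]
        · exact h2 i _
        · intro j _ hj; exact h4 i j _ _ (Ne.symm hj)
        · intro hi; exact absurd (Finset.mem_univ i) hi
      rw [Finset.sum_congr rfl (fun i _ => this i)]; norm_num
    rw [e1, e2, e3]; norm_num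
  exact sub_eq_zero.1 (inner_self_eq_zero.1 h5)

theorem normal01 [FiniteDimensional ℝ V] (hV : finrank ℝ V = 6) (h : Config v)
    (hnc : ∀ i s, v s ≠ v (s ^^^ g i)) : inner ℝ (v 0) (v 1) = (-3 / 4 : ℝ) := by
  choose m h1 h2 h3 h5 using mid hV h hnc
  have h4 : ∀ i j w w', i ≠ j → inner ℝ (m i w) (m j w') = (0 : ℝ) :=
    fun i j w w' hij => orth hV h hnc m h1 i j w w' hij
  have hs := sum_mid h m h2 h3 h4
  -- the two midpoints in each direction are opposite
  have hM : ∀ i, ∑ j, (m j false + m j true) = m i false + m i true := by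
    intro i
    obtain ⟨s, hs1, hs2⟩ := h5 i false
    have e := h1 i false s hs1 hs2
    rw [hs s, hs (s ^^^ g i), ← Finset.sum_add_distrib] at e
    have e2 : ∀ j, m j (side j s) + m j (side j (s ^^^ g i)) =
        (m j false + m j true) + (if j = i then (m j false - m j true) else 0) := by
      intro j
      rw [dec_side]
      by_cases hj : j = i
      · subst hj
        simp only [if_true, hs1]
        abel
      · simp only [if_neg hj, add_zero]
        cases side j s
        · simp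
        · simp only [Bool.not_true]; abel
    rw [Finset.sum_congr rfl (fun j _ => e2 j), Finset.sum_add_distrib] at e
    simp only [Finset.sum_ite_eq', Finset.mem_univ, if_true] at e
    have e3 : ∑ j, (m j false + m j true) = (2 : ℝ) • m i false - (m i false - m i true) :=
      eq_sub_of_add_eq e
    rw [e3, two_smul]; abel
  set T := ∑ j, (m j false + m j true) with hT
  have hT5 : T = (5 : ℝ) • T := by
    conv_lhs => rw [hT]
    rw [Finset.sum_congr rfl (fun j _ => (hM j).symm)]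
    simp only [Finset.sum_const, Finset.card_univ, Fintype.card_fin]
    rw [← Nat.cast_smul_eq_nsmul ℝ]; norm_num
  have hT0 : T = 0 := by
    have : (4 : ℝ) • T = 0 := by
      have e4 : (4 : ℝ) • T = (5 : ℝ) • T - T := by
        rw [show (5 : ℝ) = 4 + 1 by norm_num, add_smul, one_smul]; abel
      rw [e4, ← hT5, sub_self]
    exact (smul_eq_zero.1 this).resolve_left (by norm_num)
  have hopp : ∀ i, m i true = - m i false := by
    intro i
    have := hM i
    rw [hT0] at this
    exact (neg_eq_of_add_eq_zero_right this.symm).symm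
  rw [hs 0, hs 1, sum_inner]
  have key : ∀ i : Fin 5, inner ℝ (m i (side i 0)) (∑ j, m j (side j 1)) =
      (if i = 0 then (1 / 4 : ℝ) else (-1 / 4 : ℝ)) := by
    intro i
    rw [inner_sum, Finset.sum_eq_single i]
    · by_cases hi : i = 0
      · subst hi
        have a1 : side 0 0 = false := by decide
        have a2 : side 0 1 = false := by decide
        rw [a1, a2, if_pos rfl]; exact h2 _ _
      · have a1 : side i 0 = false := by revert hi; revert i; decide
        have a2 : side i 1 = true := by revert hi; revert i; decide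
        rw [a1, a2, hopp i, inner_neg_right, h2]
        simp [hi]; norm_num
    · intro j _ hj; exact h4 i j _ _ (Ne.symm hj)
    · intro hi; exact absurd (Finset.mem_univ i) hi
  rw [Finset.sum_congr rfl (fun i _ => key i)]
  simp only [Fin.sum_univ_five]
  norm_num [Fin.ext_iff]

end Config

end Pool.Agent.Hhelper57.UD
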